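import Mathlib

/-!
# Injective tensor products, embeddings of Banach spaces and the spaces `C(ξ)`
-/

open Set TensorProduct

namespace Pool.Agent.Helper42

universe u v w

section

variable {X : Type u} {Y : Type v} [NormedAddCommGroup X] [NormedSpace ℝ X]
  [NormedAddCommGroup Y] [NormedSpace ℝ Y]

/-- The injective norm `sup {|∑ f xᵢ * g yᵢ| : ‖f‖ ≤ 1, ‖g‖ ≤ 1}` of `u = ∑ xᵢ ⊗ yᵢ`
(here `∑ f xᵢ * g yᵢ` is written as the image of `u` under `f ⊗ g` followed by
multiplication). -/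
noncomputable def injNorm (u : X ⊗[ℝ] Y) : ℝ :=
  sSup {r : ℝ | ∃ (f : StrongDual ℝ X) (g : StrongDual ℝ Y), ‖f‖ ≤ 1 ∧ ‖g‖ ≤ 1 ∧
    r = |LinearMap.mul' ℝ ℝ (TensorProduct.map (f : X →ₗ[ℝ] ℝ) (g : Y →ₗ[ℝ] ℝ) u)|}

variable (X Y) in
/-- `Z` is the injective tensor product of `X` and `Y`, i.e. the completion of `X ⊗ Y` in the
injective norm: there is a linear map from `X ⊗ Y` to `Z` with dense range which is isometric
for the injective norm (`Z` is meant to be complete). -/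
def IsInjTensor (Z : Type w) [NormedAddCommGroup Z] [NormedSpace ℝ Z] : Prop :=
  ∃ i : X ⊗[ℝ] Y →ₗ[ℝ] Z, DenseRange i ∧ ∀ u, ‖i u‖ = injNorm u

end

/-- `COrd ξ` is the Banach space `C(ξ)` of continuous real functions, with the sup norm, on the
compact space `[0, ξ]` of all ordinals at most `ξ` with the order topology. -/
abbrev COrd (ξ : Ordinal.{u}) : Type (u + 1) := C(Icc 0 ξ, ℝ)

/-- `c0` is the Banach space of real sequences tending to zero, with the sup norm. -/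
abbrev c0 : Type := ZeroAtInftyContinuousMap ℕ ℝ

section

variable (E : Type u) (Z : Type v) [NormedAddCommGroup E] [NormedSpace ℝ E]
  [NormedAddCommGroup Z] [NormedSpace ℝ Z]

/-- `E` embeds in `Z`: `E` is isomorphic to a closed subspace of `Z`. -/
def Embeds : Prop :=
  ∃ F : Submodule ℝ Z, IsClosed (F : Set Z) ∧ Nonempty (E ≃L[ℝ] F)

/-- `E` embeds complementably in `Z`: `E` is isomorphic to a closed subspace of `Z` which is the
range of a continuous linear projection. -/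
def EmbedsCompl : Prop :=
  ∃ F : Submodule ℝ Z, IsClosed (F : Set Z) ∧ F.ClosedComplemented ∧ Nonempty (E ≃L[ℝ] F)

end

section

variable (E : ℕ → Type u) (Z : Type v) [∀ n, NormedAddCommGroup (E n)]
  [∀ n, NormedSpace ℝ (E n)] [NormedAddCommGroup Z] [NormedSpace ℝ Z]

/-- The sequence `(E n)` embeds uniformly in `Z`: there are isomorphisms `T n` of `E n` onto
closed subspaces `F n` of `Z` with `‖T n‖ * ‖(T n)⁻¹‖` bounded. -/
def EmbedsUnif : Prop :=
  ∃ (F : ℕ → Submodule ℝ Z) (T : ∀ n, E n ≃L[ℝ] F n) (C : ℝ), ∀ n,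
    IsClosed (F n : Set Z) ∧
    ‖(T n : E n →L[ℝ] F n)‖ * ‖((T n).symm : F n →L[ℝ] E n)‖ ≤ C

/-- The sequence `(E n)` embeds uniformly complementably in `Z`: moreover there are projections
`P n` of `Z` onto `F n` with `‖P n‖` bounded. -/
def EmbedsUnifCompl : Prop :=
  ∃ (F : ℕ → Submodule ℝ Z) (T : ∀ n, E n ≃L[ℝ] F n) (P : ∀ n, Z →L[ℝ] F n) (C : ℝ), ∀ n,
    IsClosed (F n : Set Z) ∧ (∀ x : F n, P n x = x) ∧
    ‖(T n : E n →L[ℝ] F n)‖ * ‖((T n).symm : F n →L[ℝ] E n)‖ ≤ C ∧ ‖P n‖ ≤ C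

end

end Pool.Agent.Helper42
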