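import Mathlib

/-!
# The injective tensor product of two real Banach spaces

`AlgTensor X Y` is the algebraic tensor product with the injective norm, and
`InjTensor X Y` is its completion.
-/

open TensorProduct

namespace Pool.Agent.Helper42

universe u v w

section Defs

variable (X : Type u) (Y : Type v) [NormedAddCommGroup X] [NormedSpace ℝ X]
  [NormedAddCommGroup Y] [NormedSpace ℝ Y]

/-- The algebraic tensor product `X ⊗ Y` over the reals, as a copy of Mathlib's
`TensorProduct ℝ X Y` which is to carry the injective norm. -/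
def AlgTensor : Type (max u v) := X ⊗[ℝ] Y

noncomputable instance : AddCommGroup (AlgTensor X Y) :=
  inferInstanceAs (AddCommGroup (X ⊗[ℝ] Y))

noncomputable instance : Module ℝ (AlgTensor X Y) :=
  inferInstanceAs (Module ℝ (X ⊗[ℝ] Y))

variable {X Y}

/-- For continuous functionals `f` on `X` and `g` on `Y`, the linear functional
`∑ xᵢ ⊗ yᵢ ↦ ∑ f xᵢ * g yᵢ` on the algebraic tensor product. -/
noncomputable def pairing (f : StrongDual ℝ X) (g : StrongDual ℝ Y) :
    AlgTensor X Y →ₗ[ℝ] ℝ :=
  TensorProduct.lift ((LinearMap.mul ℝ ℝ).compl₁₂ f.toLinearMap g.toLinearMap)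

/-- The injective norm
`‖u‖ = sup {|∑ f xᵢ * g yᵢ| : ‖f‖ ≤ 1, ‖g‖ ≤ 1}` for `u = ∑ xᵢ ⊗ yᵢ`. -/
noncomputable instance : Norm (AlgTensor X Y) where
  norm u := sSup {r : ℝ | ∃ (f : StrongDual ℝ X) (g : StrongDual ℝ Y),
    ‖f‖ ≤ 1 ∧ ‖g‖ ≤ 1 ∧ r = |pairing f g u|}

/-- The elementary tensor `x ⊗ y` in the algebraic tensor product. -/
def AlgTensor.tmul (x : X) (y : Y) : AlgTensor X Y := x ⊗ₜ[ℝ] y

@[simp]
theorem pairing_tmul (f : StrongDual ℝ X) (g : StrongDual ℝ Y) (x : X) (y : Y) :
    pairing f g (AlgTensor.tmul x y) = f x * g y := by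
  unfold pairing AlgTensor.tmul
  erw [TensorProduct.lift.tmul]
  simp

theorem AlgTensor.induction_on {p : AlgTensor X Y → Prop} (u : AlgTensor X Y)
    (zero : p 0) (tmul : ∀ x y, p (AlgTensor.tmul x y))
    (add : ∀ u v, p u → p v → p (u + v)) : p u :=
  TensorProduct.induction_on (motive := p) u zero tmul add

theorem pairing_smul_left (c : ℝ) (f : StrongDual ℝ X) (g : StrongDual ℝ Y)
    (u : AlgTensor X Y) : pairing (c • f) g u = c * pairing f g u := by
  induction u using AlgTensor.induction_on with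
  | zero => simp
  | tmul x y => simp [mul_assoc]
  | add u v hu hv => simp [map_add, hu, hv, mul_add]

theorem pairing_smul_right (c : ℝ) (f : StrongDual ℝ X) (g : StrongDual ℝ Y)
    (u : AlgTensor X Y) : pairing f (c • g) u = c * pairing f g u := by
  induction u using AlgTensor.induction_on with
  | zero => simp
  | tmul x y => simp; ring
  | add u v hu hv => simp [map_add, hu, hv, mul_add]

/-- For each `u` the numbers `|pairing f g u|` (`f`, `g` in the unit balls) are bounded. -/
theorem exists_bound (u : AlgTensor X Y) : ∃ C : ℝ, 0 ≤ C ∧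
    ∀ (f : StrongDual ℝ X) (g : StrongDual ℝ Y), |pairing f g u| ≤ ‖f‖ * ‖g‖ * C := by
  induction u using AlgTensor.induction_on with
  | zero => exact ⟨0, le_rfl, by simp⟩
  | tmul x y =>
    refine ⟨‖x‖ * ‖y‖, by positivity, fun f g => ?_⟩
    rw [pairing_tmul, abs_mul]
    calc |f x| * |g y| ≤ (‖f‖ * ‖x‖) * (‖g‖ * ‖y‖) :=
          mul_le_mul (f.le_opNorm x) (g.le_opNorm y) (abs_nonneg _) (by positivity)
      _ = ‖f‖ * ‖g‖ * (‖x‖ * ‖y‖) := by ring
  | add u v hu hv =>
    obtain ⟨C, hC, h1⟩ := hu
    obtain ⟨D, hD, h2⟩ := hv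
    refine ⟨C + D, by positivity, fun f g => ?_⟩
    rw [map_add]
    calc |pairing f g u + pairing f g v| ≤ |pairing f g u| + |pairing f g v| := abs_add_le _ _
      _ ≤ ‖f‖ * ‖g‖ * C + ‖f‖ * ‖g‖ * D := add_le_add (h1 f g) (h2 f g)
      _ = ‖f‖ * ‖g‖ * (C + D) := by ring

theorem norm_def (u : AlgTensor X Y) : ‖u‖ =
    sSup {r : ℝ | ∃ (f : StrongDual ℝ X) (g : StrongDual ℝ Y),
      ‖f‖ ≤ 1 ∧ ‖g‖ ≤ 1 ∧ r = |pairing f g u|} := rfl

theorem bddAbove_set (u : AlgTensor X Y) :
    BddAbove {r : ℝ | ∃ (f : StrongDual ℝ X) (g : StrongDual ℝ Y),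
      ‖f‖ ≤ 1 ∧ ‖g‖ ≤ 1 ∧ r = |pairing f g u|} := by
  obtain ⟨C, hC, h⟩ := exists_bound u
  refine ⟨C, ?_⟩
  rintro r ⟨f, g, hf, hg, rfl⟩
  refine (h f g).trans ?_
  have : ‖f‖ * ‖g‖ ≤ 1 := mul_le_one₀ hf (norm_nonneg _) hg
  nlinarith

theorem abs_pairing_le_of_le_one {f : StrongDual ℝ X} {g : StrongDual ℝ Y}
    (hf : ‖f‖ ≤ 1) (hg : ‖g‖ ≤ 1) (u : AlgTensor X Y) : |pairing f g u| ≤ ‖u‖ := by
  rw [norm_def]
  exact le_csSup (bddAbove_set u) ⟨f, g, hf, hg, rfl⟩

theorem alg_norm_nonneg (u : AlgTensor X Y) : 0 ≤ ‖u‖ := by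
  have h := abs_pairing_le_of_le_one (f := (0 : StrongDual ℝ X)) (g := (0 : StrongDual ℝ Y))
    (by simp) (by simp) u
  exact (abs_nonneg _).trans h

theorem alg_norm_le_iff (u : AlgTensor X Y) {C : ℝ} :
    ‖u‖ ≤ C ↔ ∀ (f : StrongDual ℝ X) (g : StrongDual ℝ Y), ‖f‖ ≤ 1 → ‖g‖ ≤ 1 →
      |pairing f g u| ≤ C := by
  constructor
  · intro h f g hf hg
    exact (abs_pairing_le_of_le_one hf hg u).trans h
  · intro h
    rw [norm_def]
    refine csSup_le ⟨_, 0, 0, by simp, by simp, rfl⟩ ?_
    rintro r ⟨f, g, hf, hg, rfl⟩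
    exact h f g hf hg

theorem abs_pairing_le (f : StrongDual ℝ X) (g : StrongDual ℝ Y)
    (u : AlgTensor X Y) : |pairing f g u| ≤ ‖f‖ * ‖g‖ * ‖u‖ := by
  rcases eq_or_ne f 0 with rfl | hf
  · have : pairing (0 : StrongDual ℝ X) g u = 0 := by
      have := pairing_smul_left 0 (0 : StrongDual ℝ X) g u
      simpa using this
    simp [this]
  rcases eq_or_ne g 0 with rfl | hg
  · have : pairing f (0 : StrongDual ℝ Y) u = 0 := by
      have := pairing_smul_right 0 f (0 : StrongDual ℝ Y) u
      simpa using this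
    simp [this]
  have hf' : 0 < ‖f‖ := norm_pos_iff.2 hf
  have hg' : 0 < ‖g‖ := norm_pos_iff.2 hg
  have h := abs_pairing_le_of_le_one (f := ‖f‖⁻¹ • f) (g := ‖g‖⁻¹ • g)
    (by rw [norm_smul]; simp [hf'.ne']) (by rw [norm_smul]; simp [hg'.ne']) u
  rw [pairing_smul_left, pairing_smul_right, abs_mul, abs_mul, abs_inv, abs_inv,
    abs_of_pos hf', abs_of_pos hg'] at h
  have h2 : ‖f‖ * ‖g‖ * (‖f‖⁻¹ * (‖g‖⁻¹ * |pairing f g u|)) ≤ ‖f‖ * ‖g‖ * ‖u‖ :=
    mul_le_mul_of_nonneg_left h (by positivity)
  calc |pairing f g u| = ‖f‖ * ‖g‖ * (‖f‖⁻¹ * (‖g‖⁻¹ * |pairing f g u|)) := by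
        field_simp
    _ ≤ _ := h2

/-- The functionals `pairing f g` separate the points of the algebraic tensor product. -/
theorem eq_zero_of_pairing (u : AlgTensor X Y)
    (h : ∀ (f : StrongDual ℝ X) (g : StrongDual ℝ Y), pairing f g u = 0) : u = 0 := by
  classical
  -- expand with respect to a basis of `Y`
  let b := Module.Basis.ofVectorSpace ℝ Y
  let e := TensorProduct.equivFinsuppOfBasisRight (M := X) b
  have key : e u = 0 := by
    by_contra hne
    set c := e u with hc
    -- the span of the basis vectors that occur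
    have hu : (u : X ⊗[ℝ] Y) = c.sum fun i x => x ⊗ₜ[ℝ] b i := by
      have := (e.symm_apply_apply u).symm
      rw [this]
      exact TensorProduct.equivFinsuppOfBasisRight_symm_apply b _
    obtain ⟨i, hi⟩ : ∃ i, c i ≠ 0 := by
      by_contra hcon
      push Not at hcon
      exact hne (Finsupp.ext hcon)
    have hisupp : i ∈ c.support := Finsupp.mem_support_iff.2 hi
    -- finite dimensional subspace
    let F : Submodule ℝ Y := Submodule.span ℝ (b '' (c.support : Set _))
    have : FiniteDimensional ℝ F :=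
      FiniteDimensional.span_of_finite ℝ (Set.Finite.image _ c.support.finite_toSet)
    let g₀ : F →ₗ[ℝ] ℝ := (b.coord i).domRestrict F
    obtain ⟨g, hg, -⟩ := exists_extension_norm_eq F (LinearMap.toContinuousLinearMap g₀)
    have hgb : ∀ j ∈ c.support, g (b j) = if j = i then 1 else 0 := by
      intro j hj
      have hjF : b j ∈ F := Submodule.subset_span ⟨j, hj, rfl⟩
      have := hg ⟨b j, hjF⟩
      rw [this]
      change b.coord i (b j) = _
      rw [Module.Basis.coord_apply, b.repr_self, Finsupp.single_apply]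
    apply hi
    have hall : ∀ f : StrongDual ℝ X, f (c i) = 0 := by
      intro f
      have h1 := h f g
      have h2 : pairing f g u = c.sum fun j x => f x * g (b j) := by
        have h3 : pairing f g u =
            TensorProduct.lift ((LinearMap.mul ℝ ℝ).compl₁₂ f.toLinearMap g.toLinearMap)
              (c.sum fun i x => x ⊗ₜ[ℝ] b i) := by
          rw [← hu]; rfl
        rw [h3, Finsupp.sum, map_sum, Finsupp.sum]
        refine Finset.sum_congr rfl fun j _ => ?_
        rw [TensorProduct.lift.tmul]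
        simp
      rw [h2, Finsupp.sum, Finset.sum_congr rfl
        (fun j hj => by rw [hgb j hj])] at h1
      simpa [hisupp] using h1
    exact SeparatingDual.eq_zero_of_forall_dual_eq_zero hall
  have := e.map_eq_zero_iff.1 key
  exact this

noncomputable instance : NormedAddCommGroup (AlgTensor X Y) :=
  NormedAddCommGroup.ofCore (𝕜 := ℝ)
    { norm_nonneg := alg_norm_nonneg
      norm_smul := by
        intro c u
        apply le_antisymm
        · rw [alg_norm_le_iff]
          intro f g hf hg
          rw [map_smul, smul_eq_mul, abs_mul]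
          exact mul_le_mul_of_nonneg_left (abs_pairing_le_of_le_one hf hg u) (abs_nonneg _)
        · rcases eq_or_ne c 0 with rfl | hc
          · simpa using alg_norm_nonneg ((0 : ℝ) • u)
          · have hc' : 0 < |c| := abs_pos.2 hc
            have : ‖u‖ ≤ |c|⁻¹ * ‖c • u‖ := by
              rw [alg_norm_le_iff]
              intro f g hf hg
              have := abs_pairing_le_of_le_one hf hg (c • u)
              rw [map_smul, smul_eq_mul, abs_mul] at this
              calc |pairing f g u| = |c|⁻¹ * (|c| * |pairing f g u|) := by field_simp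
                _ ≤ _ := mul_le_mul_of_nonneg_left this (by positivity)
            calc ‖c‖ * ‖u‖ ≤ |c| * (|c|⁻¹ * ‖c • u‖) :=
                  mul_le_mul_of_nonneg_left this (abs_nonneg _)
              _ = ‖c • u‖ := by field_simp
      norm_triangle := by
        intro u v
        rw [alg_norm_le_iff]
        intro f g hf hg
        rw [map_add]
        exact (abs_add_le _ _).trans
          (add_le_add (abs_pairing_le_of_le_one hf hg u) (abs_pairing_le_of_le_one hf hg v))
      norm_eq_zero_iff := by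
        intro u
        constructor
        · intro h
          apply eq_zero_of_pairing
          intro f g
          have := abs_pairing_le f g u
          rw [h, mul_zero] at this
          exact abs_nonpos_iff.1 this
        · rintro rfl
          apply le_antisymm _ (alg_norm_nonneg _)
          rw [alg_norm_le_iff]
          intro f g _ _
          simp }

noncomputable instance : NormedSpace ℝ (AlgTensor X Y) where
  norm_smul_le c u := by
    rw [alg_norm_le_iff]
    intro f g hf hg
    rw [map_smul, smul_eq_mul, abs_mul]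
    exact mul_le_mul_of_nonneg_left (abs_pairing_le_of_le_one hf hg u) (abs_nonneg _)

variable (X Y)

/-- The injective tensor product of `X` and `Y`: the completion of the algebraic tensor
product in the injective norm. -/
abbrev InjTensor : Type (max u v) := UniformSpace.Completion (AlgTensor X Y)

end Defs

end Pool.Agent.Helper42
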