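import Pool.Agent.Helper42.InjTensorDefs

/-!
# Basic operations on the injective tensor product
-/

open TensorProduct

namespace Pool.Agent.Helper42

universe u v w z

section Ops

variable {X : Type u} {Y : Type v} [NormedAddCommGroup X] [NormedSpace ℝ X]
  [NormedAddCommGroup Y] [NormedSpace ℝ Y]
  {X' : Type w} {Y' : Type z} [NormedAddCommGroup X'] [NormedSpace ℝ X']
  [NormedAddCommGroup Y'] [NormedSpace ℝ Y']

/-- The canonical inclusion of the algebraic tensor product in its completion. -/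
noncomputable def incl (X : Type u) (Y : Type v) [NormedAddCommGroup X] [NormedSpace ℝ X]
    [NormedAddCommGroup Y] [NormedSpace ℝ Y] : AlgTensor X Y →ₗ[ℝ] InjTensor X Y :=
  (UniformSpace.Completion.toComplₗᵢ (𝕜 := ℝ) (E := AlgTensor X Y)).toLinearMap

theorem norm_incl (u : AlgTensor X Y) : ‖incl X Y u‖ = ‖u‖ :=
  UniformSpace.Completion.norm_coe u

theorem denseRange_incl : DenseRange (incl X Y) :=
  UniformSpace.Completion.denseRange_coe

theorem inj_induction {p : InjTensor X Y → Prop} (hp : IsClosed {u | p u})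
    (h : ∀ u, p (incl X Y u)) (u : InjTensor X Y) : p u :=
  denseRange_incl.induction_on u hp h

/-- Lift of a bilinear map to the algebraic tensor product. -/
noncomputable def algLift {Z : Type*} [AddCommGroup Z] [Module ℝ Z] (B : X →ₗ[ℝ] Y →ₗ[ℝ] Z) :
    AlgTensor X Y →ₗ[ℝ] Z := TensorProduct.lift B

@[simp]
theorem algLift_tmul {Z : Type*} [AddCommGroup Z] [Module ℝ Z] (B : X →ₗ[ℝ] Y →ₗ[ℝ] Z)
    (x : X) (y : Y) : algLift B (AlgTensor.tmul x y) = B x y := by
  unfold algLift AlgTensor.tmul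
  erw [TensorProduct.lift.tmul]

theorem AlgTensor.add_tmul (x x' : X) (y : Y) :
    AlgTensor.tmul (x + x') y = AlgTensor.tmul x y + AlgTensor.tmul x' y :=
  TensorProduct.add_tmul x x' y

theorem AlgTensor.tmul_add (x : X) (y y' : Y) :
    AlgTensor.tmul x (y + y') = AlgTensor.tmul x y + AlgTensor.tmul x y' :=
  TensorProduct.tmul_add x y y'

theorem AlgTensor.smul_tmul' (c : ℝ) (x : X) (y : Y) :
    AlgTensor.tmul (c • x) y = c • AlgTensor.tmul x y :=
  (TensorProduct.smul_tmul' c x y).symm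

theorem AlgTensor.tmul_smul (c : ℝ) (x : X) (y : Y) :
    AlgTensor.tmul x (c • y) = c • AlgTensor.tmul x y :=
  TensorProduct.tmul_smul c x y

/-- The tensor product of two continuous linear maps, on the algebraic tensor product. -/
noncomputable def algMap (S : X →L[ℝ] X') (T : Y →L[ℝ] Y') :
    AlgTensor X Y →ₗ[ℝ] AlgTensor X' Y' :=
  algLift (LinearMap.mk₂ ℝ (fun x y => AlgTensor.tmul (S x) (T y))
    (fun x x' y => by rw [map_add, AlgTensor.add_tmul])
    (fun c x y => by rw [map_smul, AlgTensor.smul_tmul'])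
    (fun x y y' => by rw [map_add, AlgTensor.tmul_add])
    (fun c x y => by rw [map_smul, AlgTensor.tmul_smul]))

@[simp]
theorem algMap_tmul (S : X →L[ℝ] X') (T : Y →L[ℝ] Y') (x : X) (y : Y) :
    algMap S T (AlgTensor.tmul x y) = AlgTensor.tmul (S x) (T y) := by
  simp [algMap]

theorem pairing_algMap (S : X →L[ℝ] X') (T : Y →L[ℝ] Y') (f : StrongDual ℝ X')
    (g : StrongDual ℝ Y') (u : AlgTensor X Y) :
    pairing f g (algMap S T u) = pairing (f.comp S) (g.comp T) u := by
  induction u using AlgTensor.induction_on with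
  | zero => simp
  | tmul x y => simp
  | add u v hu hv => simp [map_add, hu, hv]

theorem norm_algMap_le (S : X →L[ℝ] X') (T : Y →L[ℝ] Y') (u : AlgTensor X Y) :
    ‖algMap S T u‖ ≤ ‖S‖ * ‖T‖ * ‖u‖ := by
  rw [alg_norm_le_iff]
  intro f g hf hg
  rw [pairing_algMap]
  refine (abs_pairing_le _ _ u).trans ?_
  have h1 : ‖f.comp S‖ ≤ ‖S‖ := (f.opNorm_comp_le S).trans (by nlinarith [norm_nonneg S])
  have h2 : ‖g.comp T‖ ≤ ‖T‖ := (g.opNorm_comp_le T).trans (by nlinarith [norm_nonneg T])
  gcongr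

/-- The functional `f ⊗ g` on the injective tensor product. -/
noncomputable def pair (f : StrongDual ℝ X) (g : StrongDual ℝ Y) :
    InjTensor X Y →L[ℝ] ℝ := (pairing f g).extendOfNorm (incl X Y)

theorem pairing_bound (f : StrongDual ℝ X) (g : StrongDual ℝ Y) (u : AlgTensor X Y) :
    ‖pairing f g u‖ ≤ (‖f‖ * ‖g‖) * ‖incl X Y u‖ := by
  rw [norm_incl]; exact abs_pairing_le f g u

@[simp]
theorem pair_incl (f : StrongDual ℝ X) (g : StrongDual ℝ Y) (u : AlgTensor X Y) :
    pair f g (incl X Y u) = pairing f g u :=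
  LinearMap.extendOfNorm_eq denseRange_incl ⟨_, pairing_bound f g⟩ u

theorem norm_pair_le (f : StrongDual ℝ X) (g : StrongDual ℝ Y) :
    ‖pair f g‖ ≤ ‖f‖ * ‖g‖ :=
  LinearMap.opNorm_extendOfNorm_le denseRange_incl (by positivity) (pairing_bound f g)

theorem abs_pair_le (f : StrongDual ℝ X) (g : StrongDual ℝ Y) (u : InjTensor X Y) :
    |pair f g u| ≤ ‖f‖ * ‖g‖ * ‖u‖ :=
  ((pair f g).le_opNorm u).trans (mul_le_mul_of_nonneg_right (norm_pair_le f g) (norm_nonneg _))

theorem abs_pair_le_of_le_one {f : StrongDual ℝ X} {g : StrongDual ℝ Y} (hf : ‖f‖ ≤ 1)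
    (hg : ‖g‖ ≤ 1) (u : InjTensor X Y) : |pair f g u| ≤ ‖u‖ := by
  refine (abs_pair_le f g u).trans ?_
  have : ‖f‖ * ‖g‖ ≤ 1 := mul_le_one₀ hf (norm_nonneg _) hg
  nlinarith [norm_nonneg u]

/-- The norm on the completion is still given by the functionals `f ⊗ g`. -/
theorem norm_le_of_pair (u : InjTensor X Y) {C : ℝ}
    (h : ∀ (f : StrongDual ℝ X) (g : StrongDual ℝ Y), ‖f‖ ≤ 1 → ‖g‖ ≤ 1 → |pair f g u| ≤ C) :
    ‖u‖ ≤ C := by
  refine le_of_forall_pos_le_add fun ε hε => ?_
  obtain ⟨v, hv⟩ := (denseRange_incl (X := X) (Y := Y)).exists_dist_lt u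
    (show 0 < ε / 2 by positivity)
  rw [dist_eq_norm] at hv
  have h1 : ‖v‖ ≤ C + ε / 2 := by
    rw [alg_norm_le_iff]
    intro f g hf hg
    rw [← pair_incl]
    have h2 : pair f g (incl X Y v) = pair f g u - pair f g (u - incl X Y v) := by
      rw [map_sub]; ring
    rw [h2]
    have h3 := abs_pair_le_of_le_one hf hg (u - incl X Y v)
    calc |pair f g u - pair f g (u - incl X Y v)|
        ≤ |pair f g u| + |pair f g (u - incl X Y v)| := abs_sub _ _
      _ ≤ C + ε / 2 := add_le_add (h f g hf hg) (h3.trans hv.le)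
  calc ‖u‖ = ‖(u - incl X Y v) + incl X Y v‖ := by rw [sub_add_cancel]
    _ ≤ ‖u - incl X Y v‖ + ‖incl X Y v‖ := norm_add_le _ _
    _ ≤ ε / 2 + (C + ε / 2) := add_le_add hv.le (by rwa [norm_incl])
    _ = C + ε := by ring

/-- The map `x ⊗ y ↦ g y • x`. -/
noncomputable def algSliceR (g : StrongDual ℝ Y) : AlgTensor X Y →ₗ[ℝ] X :=
  algLift (LinearMap.mk₂ ℝ (fun x y => g y • x)
    (fun x x' y => by rw [smul_add])
    (fun c x y => by rw [smul_comm])
    (fun x y y' => by rw [map_add, add_smul])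
    (fun c x y => by rw [map_smul, smul_eq_mul, mul_smul]))

/-- The map `x ⊗ y ↦ f x • y`. -/
noncomputable def algSliceL (f : StrongDual ℝ X) : AlgTensor X Y →ₗ[ℝ] Y :=
  algLift (LinearMap.mk₂ ℝ (fun x y => f x • y)
    (fun x x' y => by rw [map_add, add_smul])
    (fun c x y => by rw [map_smul, smul_eq_mul, mul_smul])
    (fun x y y' => by rw [smul_add])
    (fun c x y => by rw [smul_comm]))

theorem apply_algSliceR (f : StrongDual ℝ X) (g : StrongDual ℝ Y) (u : AlgTensor X Y) :
    f (algSliceR g u) = pairing f g u := by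
  induction u using AlgTensor.induction_on with
  | zero => simp
  | tmul x y => simp [algSliceR, mul_comm]
  | add u v hu hv => simp [map_add, hu, hv]

theorem apply_algSliceL (f : StrongDual ℝ X) (g : StrongDual ℝ Y) (u : AlgTensor X Y) :
    g (algSliceL f u) = pairing f g u := by
  induction u using AlgTensor.induction_on with
  | zero => simp
  | tmul x y => simp [algSliceL]
  | add u v hu hv => simp [map_add, hu, hv]

theorem norm_algSliceR_le (g : StrongDual ℝ Y) (u : AlgTensor X Y) :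
    ‖algSliceR (X := X) g u‖ ≤ ‖g‖ * ‖incl X Y u‖ := by
  obtain ⟨f, hf, hfe⟩ := exists_dual_vector'' ℝ (algSliceR (X := X) g u)
  rw [apply_algSliceR] at hfe
  have h := abs_pairing_le f g u
  rw [hfe] at h
  simp only [RCLike.ofReal_real_eq_id, id_eq, abs_norm] at h
  rw [norm_incl]
  refine h.trans ?_
  have : ‖f‖ * ‖g‖ ≤ 1 * ‖g‖ := mul_le_mul_of_nonneg_right hf (norm_nonneg _)
  rw [one_mul] at this
  exact mul_le_mul_of_nonneg_right this (norm_nonneg _)

theorem norm_algSliceL_le (f : StrongDual ℝ X) (u : AlgTensor X Y) :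
    ‖algSliceL (Y := Y) f u‖ ≤ ‖f‖ * ‖incl X Y u‖ := by
  obtain ⟨g, hg, hge⟩ := exists_dual_vector'' ℝ (algSliceL (Y := Y) f u)
  rw [apply_algSliceL] at hge
  have h := abs_pairing_le f g u
  rw [hge] at h
  simp only [RCLike.ofReal_real_eq_id, id_eq, abs_norm] at h
  rw [norm_incl]
  refine h.trans ?_
  have : ‖f‖ * ‖g‖ ≤ ‖f‖ * 1 := mul_le_mul_of_nonneg_left hg (norm_nonneg _)
  rw [mul_one] at this
  exact mul_le_mul_of_nonneg_right this (norm_nonneg _)

/-- The map `x ⊗ y ↦ g y • x` on the injective tensor product. -/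
noncomputable def sliceR [CompleteSpace X] (g : StrongDual ℝ Y) : InjTensor X Y →L[ℝ] X :=
  (algSliceR g).extendOfNorm (incl X Y)

/-- The map `x ⊗ y ↦ f x • y` on the injective tensor product. -/
noncomputable def sliceL [CompleteSpace Y] (f : StrongDual ℝ X) : InjTensor X Y →L[ℝ] Y :=
  (algSliceL f).extendOfNorm (incl X Y)

theorem apply_sliceR [CompleteSpace X] (f : StrongDual ℝ X) (g : StrongDual ℝ Y)
    (u : InjTensor X Y) : f (sliceR g u) = pair f g u := by
  refine inj_induction (p := fun u => f (sliceR g u) = pair f g u)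
    (isClosed_eq (by fun_prop) (by fun_prop)) (fun u => ?_) u
  rw [pair_incl, sliceR, LinearMap.extendOfNorm_eq denseRange_incl ⟨_, norm_algSliceR_le g⟩,
    apply_algSliceR]

theorem apply_sliceL [CompleteSpace Y] (f : StrongDual ℝ X) (g : StrongDual ℝ Y)
    (u : InjTensor X Y) : g (sliceL f u) = pair f g u := by
  refine inj_induction (p := fun u => g (sliceL f u) = pair f g u)
    (isClosed_eq (by fun_prop) (by fun_prop)) (fun u => ?_) u
  rw [pair_incl, sliceL, LinearMap.extendOfNorm_eq denseRange_incl ⟨_, norm_algSliceL_le f⟩,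
    apply_algSliceL]

/-- A set of functionals is norming if the norm is bounded by the supremum over it. -/
def Norming (N : Set (StrongDual ℝ X)) : Prop :=
  ∀ (x : X) (C : ℝ), 0 ≤ C → (∀ f ∈ N, |f x| ≤ C) → ‖x‖ ≤ C

/-- It suffices to test the norm of the injective tensor product on norming sets. -/
theorem norm_le_of_norming [CompleteSpace X] [CompleteSpace Y] {N : Set (StrongDual ℝ X)}
    {M : Set (StrongDual ℝ Y)} (hN : Norming N) (hM : Norming M) (u : InjTensor X Y) {C : ℝ}
    (hC : 0 ≤ C) (h : ∀ f ∈ N, ∀ g ∈ M, |pair f g u| ≤ C) : ‖u‖ ≤ C := by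
  apply norm_le_of_pair
  intro f g hf hg
  rw [← apply_sliceR]
  have h1 : ‖sliceR g u‖ ≤ C := by
    refine hN _ _ hC fun n hn => ?_
    rw [apply_sliceR, ← apply_sliceL]
    have h2 : ‖sliceL n u‖ ≤ C := by
      refine hM _ _ hC fun m hm => ?_
      rw [apply_sliceL]
      exact h n hn m hm
    calc |g (sliceL n u)| ≤ ‖g‖ * ‖sliceL n u‖ := g.le_opNorm _
      _ ≤ 1 * C := mul_le_mul hg h2 (norm_nonneg _) zero_le_one
      _ = C := one_mul C
  calc |f (sliceR g u)| ≤ ‖f‖ * ‖sliceR g u‖ := f.le_opNorm _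
    _ ≤ 1 * C := mul_le_mul hf h1 (norm_nonneg _) zero_le_one
    _ = C := one_mul C

/-- The tensor product of two continuous linear maps, on the injective tensor product. -/
noncomputable def tmap (S : X →L[ℝ] X') (T : Y →L[ℝ] Y') :
    InjTensor X Y →L[ℝ] InjTensor X' Y' :=
  ((incl X' Y').comp (algMap S T)).extendOfNorm (incl X Y)

theorem tmap_bound (S : X →L[ℝ] X') (T : Y →L[ℝ] Y') (u : AlgTensor X Y) :
    ‖((incl X' Y').comp (algMap S T)) u‖ ≤ (‖S‖ * ‖T‖) * ‖incl X Y u‖ := by
  rw [norm_incl, LinearMap.comp_apply, norm_incl]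
  exact norm_algMap_le S T u

@[simp]
theorem tmap_incl (S : X →L[ℝ] X') (T : Y →L[ℝ] Y') (u : AlgTensor X Y) :
    tmap S T (incl X Y u) = incl X' Y' (algMap S T u) :=
  LinearMap.extendOfNorm_eq denseRange_incl ⟨_, tmap_bound S T⟩ u

theorem pair_tmap (S : X →L[ℝ] X') (T : Y →L[ℝ] Y') (f : StrongDual ℝ X')
    (g : StrongDual ℝ Y') (u : InjTensor X Y) :
    pair f g (tmap S T u) = pair (f.comp S) (g.comp T) u := by
  refine inj_induction (p := fun u => pair f g (tmap S T u) = pair (f.comp S) (g.comp T) u)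
    (isClosed_eq (by fun_prop) (by fun_prop)) (fun u => ?_) u
  rw [tmap_incl, pair_incl, pair_incl, pairing_algMap]

/-- The elementary tensor `x ⊗ y` in the injective tensor product. -/
noncomputable def tm (x : X) (y : Y) : InjTensor X Y := incl X Y (AlgTensor.tmul x y)

@[simp]
theorem pair_tm (f : StrongDual ℝ X) (g : StrongDual ℝ Y) (x : X) (y : Y) :
    pair f g (tm x y) = f x * g y := by
  rw [tm, pair_incl, pairing_tmul]

theorem pair_zero_left (g : StrongDual ℝ Y) (u : InjTensor X Y) :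
    pair (0 : StrongDual ℝ X) g u = 0 := by
  have := abs_pair_le (0 : StrongDual ℝ X) g u
  simpa using this

theorem pair_zero_right (f : StrongDual ℝ X) (u : InjTensor X Y) :
    pair f (0 : StrongDual ℝ Y) u = 0 := by
  have := abs_pair_le f (0 : StrongDual ℝ Y) u
  simpa using this

end Ops

end Pool.Agent.Helper42
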