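import Pool.Agent.Helper42.ModelOrdinal
import Pool.Agent.Helper42.EmbedDefs

/-!
# The complemented copy of `C(K)` given by a square model, and the absence of `c₀`
-/

open Filter Topology Ordinal Cardinal Set TensorProduct

namespace Pool.Agent.Helper42

universe u v

section Retract

variable {E : Type u} {Z : Type v} [NormedAddCommGroup E] [NormedSpace ℝ E]
  [NormedAddCommGroup Z] [NormedSpace ℝ Z]

/-- A retract is a complemented closed subspace. -/
theorem embedsCompl_of_retract (J : E →L[ℝ] Z) (P : Z →L[ℝ] E) (h : ∀ x, P (J x) = x) :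
    EmbedsCompl E Z := by
  let F : Submodule ℝ Z := LinearMap.range (J : E →ₗ[ℝ] Z)
  have hF : ∀ z, z ∈ F ↔ J (P z) = z := by
    intro z
    constructor
    · rintro ⟨x, rfl⟩
      change J (P (J x)) = J x
      rw [h]
    · intro hz
      exact ⟨P z, hz⟩
  refine ⟨F, ?_, ?_, ?_⟩
  · have : (F : Set Z) = {z | J (P z) = z} := by
      ext z
      exact hF z
    rw [this]
    exact isClosed_eq (by fun_prop) (by fun_prop)
  · refine ⟨(J.comp P).codRestrict F fun z => ⟨P z, rfl⟩, ?_⟩
    intro z
    apply Subtype.ext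
    exact (hF z).1 z.2
  · exact ⟨ContinuousLinearEquiv.equivOfInverse (J.codRestrict F fun x => ⟨x, rfl⟩)
      (P.comp F.subtypeL) (fun x => h x) (fun z => Subtype.ext ((hF z).1 z.2))⟩

theorem EmbedsCompl.embeds (h : EmbedsCompl E Z) : Embeds E Z := by
  obtain ⟨F, h1, -, h2⟩ := h
  exact ⟨F, h1, h2⟩

/-- A space embedded in a space with null sums has null sums. -/
theorem Embeds.nullSums (h : Embeds E Z) (hZ : NullSums Z) : NullSums E := by
  obtain ⟨F, -, ⟨T⟩⟩ := h
  refine nullSums_of_bounded_below (F.subtypeL.comp (T : E →L[ℝ] F))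
    ‖(T.symm : F →L[ℝ] E)‖ (fun x => ?_) hZ
  have := (T.symm : F →L[ℝ] E).le_opNorm (T x)
  simpa using this

end Retract

section Model

variable {K : Type u} [TopologicalSpace K] [CompactSpace K] (M : Model K)

/-- The function `r ↦ φ r x * φ r y`. -/
def Model.prodFn (x y : M.X) : C(K, ℝ) :=
  ⟨fun r => M.φ r x * M.φ r y, (M.cont_φ x).mul (M.cont_φ y)⟩

/-- The restriction to the diagonal on the algebraic tensor product. -/
noncomputable def Model.diag₀ : AlgTensor M.X M.X →ₗ[ℝ] C(K, ℝ) :=
  algLift (LinearMap.mk₂ ℝ M.prodFn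
    (fun x x' y => by ext r; simp [prodFn, add_mul])
    (fun c x y => by ext r; simp [prodFn, mul_assoc])
    (fun x y y' => by ext r; simp [prodFn, mul_add])
    (fun c x y => by ext r; simp [prodFn]; ring))

theorem Model.diag₀_apply (u : AlgTensor M.X M.X) (r : K) :
    M.diag₀ u r = pairing (M.φ r) (M.φ r) u := by
  induction u using AlgTensor.induction_on with
  | zero => simp
  | tmul x y => simp [diag₀, prodFn]
  | add u v hu hv => simp [map_add, hu, hv]

theorem Model.norm_diag₀_le (u : AlgTensor M.X M.X) :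
    ‖M.diag₀ u‖ ≤ 1 * ‖incl M.X M.X u‖ := by
  rw [ContinuousMap.norm_le _ (by positivity)]
  intro r
  rw [M.diag₀_apply, norm_incl, one_mul]
  exact abs_pairing_le_of_le_one (M.norm_φ r) (M.norm_φ r) u

/-- The restriction to the diagonal on the injective tensor product. -/
noncomputable def Model.diag : InjTensor M.X M.X →L[ℝ] C(K, ℝ) :=
  M.diag₀.extendOfNorm (incl M.X M.X)

theorem Model.diag_apply (u : InjTensor M.X M.X) (r : K) :
    M.diag u r = pair (M.φ r) (M.φ r) u := by
  refine inj_induction (p := fun u => M.diag u r = pair (M.φ r) (M.φ r) u)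
    (isClosed_eq ?_ (by fun_prop)) (fun u => ?_) u
  · exact (continuous_eval_const r).comp M.diag.continuous
  · rw [diag, LinearMap.extendOfNorm_eq denseRange_incl ⟨_, M.norm_diag₀_le⟩, pair_incl,
      M.diag₀_apply]

/-- The embedding of `C(K)`, as a continuous linear map. -/
noncomputable def Model.Jc : C(K, ℝ) →L[ℝ] InjTensor M.X M.X :=
  M.J.mkContinuous 2 fun f => by
    refine M.norm_J f _ (by positivity) (fun r => ?_) (fun r s => ?_)
    · have := f.norm_coe_le_norm r
      rw [Real.norm_eq_abs] at this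
      linarith [norm_nonneg f]
    · have h1 := f.norm_coe_le_norm r
      have h2 := f.norm_coe_le_norm s
      rw [Real.norm_eq_abs] at h1 h2
      calc |f r - f s| ≤ |f r| + |f s| := abs_sub _ _
        _ ≤ 2 * ‖f‖ := by linarith

theorem Model.diag_Jc (f : C(K, ℝ)) : M.diag (M.Jc f) = f := by
  ext r
  rw [M.diag_apply]
  exact M.pair_self r f

theorem Model.embedsCompl : EmbedsCompl C(K, ℝ) (InjTensor M.X M.X) :=
  embedsCompl_of_retract M.Jc M.diag M.diag_Jc

end Model

theorem isClopen_nat (n : ℕ) : IsClopen ({(n : Ordinal.{u})} : Set Ordinal.{u}) := by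
  refine ⟨isClosed_singleton, ?_⟩
  rw [SuccOrder.isOpen_singleton_iff]
  exact fun h => (Ordinal.natCast_lt_omega0 n).not_ge (Ordinal.omega0_le_of_isSuccLimit h)

/-- The indicator function of the isolated point `n < ω` of `[0, ξ]`. -/
noncomputable def pt (ξ : Ordinal.{u}) (n : ℕ) : C(Icc 0 ξ, ℝ) where
  toFun := Set.indicator (Subtype.val ⁻¹' {(n : Ordinal.{u})}) (fun _ => (1 : ℝ))
  continuous_toFun :=
    ((isClopen_nat n).preimage continuous_subtype_val).continuous_indicator continuous_const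

theorem pt_apply_self (ξ : Ordinal.{u}) (n : ℕ) (x : Icc 0 ξ) (hx : (x : Ordinal.{u}) = n) :
    pt ξ n x = 1 :=
  Set.indicator_of_mem (s := Subtype.val ⁻¹' {(n : Ordinal.{u})}) hx (fun _ => (1 : ℝ))

theorem pt_apply_ne (ξ : Ordinal.{u}) (n : ℕ) (x : Icc 0 ξ) (hx : (x : Ordinal.{u}) ≠ n) :
    pt ξ n x = 0 :=
  Set.indicator_of_notMem (s := Subtype.val ⁻¹' {(n : Ordinal.{u})}) hx (fun _ => (1 : ℝ))

theorem sum_ite_abs_le (s : Finset ℕ) (f : ℕ → ℝ) (h01 : ∀ n, f n = 0 ∨ f n = 1)
    (h : ∀ n m, f n = 1 → f m = 1 → n = m) : |∑ n ∈ s, f n| ≤ 1 := by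
  by_cases hex : ∃ n ∈ s, f n = 1
  · obtain ⟨n, hn, hfn⟩ := hex
    rw [Finset.sum_eq_single_of_mem n hn, hfn, abs_one]
    intro m _ hm
    rcases h01 m with h0 | h1
    · exact h0
    · exact absurd (h m n h1 hfn) hm
  · push Not at hex
    rw [Finset.sum_eq_zero, abs_zero]
    · exact zero_le_one
    · intro n hn
      rcases h01 n with h0 | h1
      · exact h0
      · exact absurd h1 (hex n hn)

theorem COrd_not_nullSums (ξ : Ordinal.{u}) (hξ : ω ≤ ξ) : ¬ NullSums (COrd ξ) := by
  intro h
  have h1 := h (fun n => pt ξ n) ⟨1, fun s => by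
    rw [ContinuousMap.norm_le _ zero_le_one]
    intro x
    rw [ContinuousMap.coe_sum, Finset.sum_apply, Real.norm_eq_abs]
    refine sum_ite_abs_le s _ (fun n => ?_) (fun n m hn hm => ?_)
    · by_cases hx : (x : Ordinal.{u}) = n
      · exact Or.inr (pt_apply_self ξ n x hx)
      · exact Or.inl (pt_apply_ne ξ n x hx)
    · by_cases hxn : (x : Ordinal.{u}) = n
      · by_cases hxm : (x : Ordinal.{u}) = m
        · exact_mod_cast hxn.symm.trans hxm
        · rw [pt_apply_ne ξ m x hxm] at hm
          exact absurd hm zero_ne_one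
      · rw [pt_apply_ne ξ n x hxn] at hn
        exact absurd hn zero_ne_one⟩
  rw [tendsto_zero_iff_norm_tendsto_zero] at h1
  obtain ⟨n, hn⟩ := (h1.eventually (gt_mem_nhds (show (0 : ℝ) < 1 / 2 by norm_num))).exists
  have hnξ : (n : Ordinal.{u}) ∈ Icc 0 ξ :=
    ⟨zero_le, (Ordinal.natCast_lt_omega0 n).le.trans hξ⟩
  have h2 := (pt ξ n).norm_coe_le_norm ⟨n, hnξ⟩
  rw [pt_apply_self ξ n _ rfl, norm_one] at h2
  linarith

/-- The unit vectors of `c₀`. -/
noncomputable def unitVec (n : ℕ) : c0 where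
  toFun := fun m => if m = n then 1 else 0
  continuous_toFun := continuous_of_discreteTopology
  zero_at_infty' := by
    rw [cocompact_eq_atTop, tendsto_congr' (f₂ := fun _ => (0 : ℝ))]
    · exact tendsto_const_nhds
    · filter_upwards [eventually_gt_atTop n] with m hm
      rw [if_neg hm.ne']

theorem unitVec_apply (n m : ℕ) : unitVec n m = if m = n then 1 else 0 := rfl

theorem c0_norm_le {f : c0} {C : ℝ} (hC : 0 ≤ C) (h : ∀ m, |f m| ≤ C) : ‖f‖ ≤ C := by
  rw [← ZeroAtInftyContinuousMap.norm_toBCF_eq_norm]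
  exact (BoundedContinuousFunction.norm_le hC).2 h

theorem c0_apply_le (f : c0) (m : ℕ) : |f m| ≤ ‖f‖ := by
  rw [← ZeroAtInftyContinuousMap.norm_toBCF_eq_norm]
  exact f.toBCF.norm_coe_le_norm m

theorem c0_not_nullSums : ¬ NullSums c0 := by
  intro h
  have h1 := h (fun n => unitVec n) ⟨1, fun s => by
    refine c0_norm_le zero_le_one fun m => ?_
    have : (∑ n ∈ s, unitVec n : c0) m = ∑ n ∈ s, unitVec n m := by
      induction s using Finset.induction_on with
      | empty => simp
      | insert a t ha ih =>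
        rw [Finset.sum_insert ha, Finset.sum_insert ha, ZeroAtInftyContinuousMap.add_apply, ih]
    rw [this]
    refine sum_ite_abs_le s _ (fun n => ?_) (fun n k hn hk => ?_)
    · rw [unitVec_apply]
      by_cases hx : m = n
      · exact Or.inr (if_pos hx)
      · exact Or.inl (if_neg hx)
    · rw [unitVec_apply] at hn hk
      by_cases hxn : m = n
      · by_cases hxk : m = k
        · exact hxn.symm.trans hxk
        · rw [if_neg hxk] at hk
          exact absurd hk zero_ne_one
      · rw [if_neg hxn] at hn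
        exact absurd hn zero_ne_one⟩
  rw [tendsto_zero_iff_norm_tendsto_zero] at h1
  obtain ⟨n, hn⟩ := (h1.eventually (gt_mem_nhds (show (0 : ℝ) < 1 / 2 by norm_num))).exists
  have h2 := c0_apply_le (unitVec n) n
  rw [unitVec_apply, if_pos rfl, abs_one] at h2
  linarith

/-- The completion `InjTensor X Y` is the injective tensor product. -/
theorem isInjTensor_injTensor (X : Type u) (Y : Type v) [NormedAddCommGroup X]
    [NormedSpace ℝ X] [NormedAddCommGroup Y] [NormedSpace ℝ Y] :
    IsInjTensor X Y (InjTensor X Y) := by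
  refine ⟨incl X Y, denseRange_incl, fun u => ?_⟩
  have h1 := (norm_incl (X := X) (Y := Y) u).trans (norm_def (X := X) (Y := Y) u)
  have h2 : ∀ (f : StrongDual ℝ X) (g : StrongDual ℝ Y),
      pairing f g u =
        LinearMap.mul' ℝ ℝ (TensorProduct.map (f : X →ₗ[ℝ] ℝ) (g : Y →ₗ[ℝ] ℝ) u) := by
    intro f g
    have : (pairing f g : X ⊗[ℝ] Y →ₗ[ℝ] ℝ) = (LinearMap.mul' ℝ ℝ).comp
        (TensorProduct.map (f : X →ₗ[ℝ] ℝ) (g : Y →ₗ[ℝ] ℝ)) := by
      apply TensorProduct.ext'
      intro x y
      rw [LinearMap.comp_apply, TensorProduct.map_tmul, LinearMap.mul'_apply]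
      exact pairing_tmul f g x y
    exact congrArg (fun h : X ⊗[ℝ] Y →ₗ[ℝ] ℝ => h u) this
  refine h1.trans ?_
  unfold injNorm
  simp only [h2]

/-- The main construction: for every countable ordinal `ξ` there is a Banach space `X` with null
sums (so that `c₀` does not embed in `X`) while `C(ξ)` embeds complementably in the injective
square of `X`. -/
theorem exists_square (ξ : Ordinal.{u}) (hξ : ξ < ω₁) :
    ∃ (X : Type (u + 1)) (_ : NormedAddCommGroup X) (_ : NormedSpace ℝ X)
      (_ : CompleteSpace X), NullSums X ∧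
      ∃ (Z : Type (u + 1)) (_ : NormedAddCommGroup Z) (_ : NormedSpace ℝ Z)
        (_ : CompleteSpace Z), IsInjTensor X X Z ∧ EmbedsCompl (COrd ξ) Z := by
  have hcount : (Iio ξ).Countable := by
    rw [← Set.countable_coe_iff, ← Cardinal.mk_le_aleph0_iff, Cardinal.mk_Iio_ordinal,
      Cardinal.lift_le_aleph0]
    have : ξ.card < ℵ₁ := by
      rw [Cardinal.lt_omega_iff_card_lt] at hξ
      exact hξ
    exact Cardinal.lt_aleph_one_iff.1 this
  obtain ⟨M⟩ := model_Icc ξ hcount
  exact ⟨M.X, M.grp, M.spc, M.cpl, M.nullSums, InjTensor M.X M.X, inferInstance, inferInstance,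
    inferInstance, isInjTensor_injTensor M.X M.X, M.embedsCompl⟩

end Pool.Agent.Helper42
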