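import Pool.Agent.Helper42.SquareModel

/-!
# Square models for countable ordinal intervals
-/

open Filter Topology Ordinal Cardinal Set

namespace Pool.Agent.Helper42

universe u

theorem Ioc_eq_Icc_succ (a b : Ordinal.{u}) : Ioc a b = Icc (Order.succ a) b := by
  ext x
  simp

theorem isOpen_Ioc_ordinal (a b : Ordinal.{u}) : IsOpen (Ioc a b) := by
  have : Ioc a b = Ioo a (Order.succ b) := by
    ext x
    simp
  rw [this]
  exact isOpen_Ioo

instance compactSpace_Ioc (a b : Ordinal.{u}) : CompactSpace (Ioc a b) := by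
  rw [Ioc_eq_Icc_succ]
  infer_instance


/-- A countable ordinal which is a limit is the supremum of a strictly increasing sequence
starting at any smaller ordinal. -/
theorem exists_seq_of_countable_limit {b : Ordinal.{u}} (hb : Order.IsSuccLimit b)
    (hcount : (Iio b).Countable) {a : Ordinal.{u}} (ha : a < b) :
    ∃ c : ℕ → Ordinal.{u}, c 0 = a ∧ StrictMono c ∧ (∀ n, c n < b) ∧
      ∀ r < b, ∃ n, r ≤ c n := by
  have : Countable (Iio b) := hcount
  have : Nonempty (Iio b) := ⟨⟨a, ha⟩⟩
  obtain ⟨e, he⟩ := exists_surjective_nat (Iio b)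
  let step : ℕ → Iio b → Iio b := fun n c =>
    ⟨Order.succ (max c.1 (e n).1), hb.succ_lt (max_lt c.2 (e n).2)⟩
  let c : ℕ → Iio b := fun n => Nat.rec ⟨a, ha⟩ step n
  have hc : ∀ n, c (n + 1) = step n (c n) := fun n => rfl
  refine ⟨fun n => (c n).1, rfl, strictMono_nat_of_lt_succ fun n => ?_, fun n => (c n).2,
    fun r hr => ?_⟩
  · rw [hc]
    change (c n).1 < Order.succ (max (c n).1 (e n).1)
    exact Order.lt_succ_iff.2 (le_max_left _ _)
  · obtain ⟨n, hn⟩ := he ⟨r, hr⟩
    refine ⟨n + 1, ?_⟩
    change r ≤ Order.succ (max (c n).1 (e n).1)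
    rw [hn]
    exact (le_max_right _ _).trans (Order.le_succ _)

/-- The inclusion of a smaller half-open interval is an open embedding. -/
theorem isOpenEmbedding_inclusion {s t : Set Ordinal.{u}} (hs : IsOpen s) (ht : IsOpen t)
    (h : s ⊆ t) : IsOpenEmbedding (Set.inclusion h) := by
  refine IsOpenEmbedding.of_comp _ ht.isOpenEmbedding_subtypeVal ?_
  exact hs.isOpenEmbedding_subtypeVal

/-- The general glueing step for ordinals. -/
theorem glue_ordinal {ι : Type} (s : Set Ordinal.{u}) [CompactSpace s] (hs : IsOpen s)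
    (p : Ordinal.{u}) (hp : p ∈ s) (l r : ι → Ordinal.{u})
    (hsub : ∀ i, Ioc (l i) (r i) ⊆ s \ {p})
    (hdisj : ∀ i i' x, x ∈ Ioc (l i) (r i) → x ∈ Ioc (l i') (r i') → i = i')
    (hcov : ∀ x ∈ s, x ≠ p → ∃ i, x ∈ Ioc (l i) (r i))
    (hM : ∀ i, Nonempty (Model (Ioc (l i) (r i)))) : Nonempty (Model s) := by
  have M : ∀ i, Model (Ioc (l i) (r i)) := fun i => (hM i).some
  let D : Glue.Data s (fun i => Ioc (l i) (r i)) :=
    { M := M
      j := fun i => Set.inclusion ((hsub i).trans sdiff_subset)
      hj := fun i => isOpenEmbedding_inclusion (isOpen_Ioc_ordinal _ _) hs _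
      hclosed := fun i => (isCompact_range (continuous_inclusion _)).isClosed
      hdisj := by
        intro i i' a a' h
        have h1 : (a : Ordinal) = a' := congrArg Subtype.val h
        exact hdisj i i' a a.2 (h1 ▸ a'.2)
      p := ⟨p, hp⟩
      hp := by
        intro i a h
        have h1 : (a : Ordinal) = p := congrArg Subtype.val h
        exact (hsub i a.2).2 h1
      hcov := by
        intro x hx
        have hx' : (x : Ordinal) ≠ p := fun h => hx (Subtype.ext h)
        obtain ⟨i, hi⟩ := hcov x x.2 hx'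
        exact ⟨i, ⟨x, hi⟩, rfl⟩ }
  exact ⟨Glue.glue D⟩

theorem model_Ioc (b : Ordinal.{u}) : (Iio b).Countable → ∀ a < b,
    Nonempty (Model (Ioc a b)) := by
  induction b using WellFoundedLT.induction with
  | ind b ih =>
    intro hcount a ha
    by_cases hlim : Order.IsSuccLimit b
    · obtain ⟨c, hc0, hcm, hcb, hcc⟩ := exists_seq_of_countable_limit hlim hcount ha
      refine glue_ordinal (ι := ℕ) (Ioc a b) (isOpen_Ioc_ordinal _ _) b ⟨ha, le_rfl⟩
        (fun n => c n) (fun n => c (n + 1)) ?_ ?_ ?_ ?_
      · intro n x hx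
        refine ⟨⟨lt_of_le_of_lt ?_ hx.1, hx.2.trans (hcb _).le⟩, ?_⟩
        · rw [← hc0]; exact hcm.monotone (Nat.zero_le n)
        · rintro rfl
          exact absurd hx.2 (not_le.2 (hcb _))
      · intro n m x hn hm
        by_contra hne
        rcases lt_or_gt_of_ne hne with h | h
        · have := hcm.monotone (Nat.succ_le_of_lt h)
          exact absurd (hm.1.trans_le hn.2) (not_lt.2 this)
        · have := hcm.monotone (Nat.succ_le_of_lt h)
          exact absurd (hn.1.trans_le hm.2) (not_lt.2 this)
      · intro x hx hxb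
        have hxb' : x < b := lt_of_le_of_ne hx.2 hxb
        have hex := hcc x hxb'
        classical
        have hspec := Nat.find_spec hex
        have hmin := fun m => Nat.find_min hex (m := m)
        rcases Nat.eq_zero_or_pos (Nat.find hex) with h0 | h0
        · rw [h0, hc0] at hspec
          exact absurd hx.1 (not_lt.2 hspec)
        · refine ⟨Nat.find hex - 1, ?_, ?_⟩
          · exact not_le.1 (hmin _ (Nat.sub_lt h0 one_pos))
          · rw [Nat.sub_add_cancel h0]
            exact hspec
      · intro n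
        refine ih (c (n + 1)) (hcb _) ?_ (c n) (hcm (Nat.lt_succ_self n))
        exact hcount.mono (Iio_subset_Iio (hcb _).le)
    · -- successor
      have hb0 : b ≠ 0 := (bot_le.trans_lt ha).ne'
      obtain ⟨b', rfl⟩ : ∃ b', b = Order.succ b' := by
        rcases Ordinal.zero_or_succ_or_isSuccLimit b with h | ⟨b', h⟩ | h
        · exact absurd h hb0
        · exact ⟨b', h.symm⟩
        · exact absurd h hlim
      have hab : a ≤ b' := Order.lt_succ_iff.1 ha
      rcases eq_or_lt_of_le hab with rfl | hab
      · refine glue_ordinal (ι := Empty) _ (isOpen_Ioc_ordinal _ _) (Order.succ a) ⟨ha, le_rfl⟩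
          (fun i => i.elim) (fun i => i.elim) (fun i => i.elim) (fun i => i.elim) ?_
          (fun i => i.elim)
        intro x hx hne
        exfalso
        apply hne
        exact le_antisymm hx.2 (Order.succ_le_of_lt hx.1)
      · refine glue_ordinal (ι := Unit) _ (isOpen_Ioc_ordinal _ _) (Order.succ b') ⟨ha, le_rfl⟩
          (fun _ => a) (fun _ => b') ?_ (fun _ _ _ _ _ => rfl) ?_ ?_
        · intro _ x hx
          refine ⟨⟨hx.1, hx.2.trans (Order.le_succ _)⟩, ?_⟩
          rintro rfl
          exact absurd hx.2 (not_le.2 (Order.lt_succ _))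
        · intro x hx hne
          refine ⟨(), hx.1, ?_⟩
          exact Order.lt_succ_iff.1 (lt_of_le_of_ne hx.2 hne)
        · intro _
          refine ih b' (Order.lt_succ _) ?_ a hab
          exact hcount.mono (Iio_subset_Iio (Order.le_succ _))

theorem model_Icc (b : Ordinal.{u}) (hcount : (Iio b).Countable) :
    Nonempty (Model (Icc 0 b)) := by
  have hopen : IsOpen (Icc 0 b) := by
    have : Icc 0 b = Iio (Order.succ b) := by ext x; simp
    rw [this]; exact isOpen_Iio
  rcases eq_or_ne b 0 with rfl | hb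
  · refine glue_ordinal (ι := Empty) _ hopen 0 (by simp) (fun i => i.elim) (fun i => i.elim)
      (fun i => i.elim) (fun i => i.elim) ?_ (fun i => i.elim)
    intro x hx hne
    exact absurd (le_antisymm hx.2 zero_le) hne
  · refine glue_ordinal (ι := Unit) _ hopen 0 (by simp) (fun _ => 0) (fun _ => b) ?_
      (fun _ _ _ _ _ => rfl) ?_ ?_
    · intro _ x hx
      exact ⟨⟨zero_le, hx.2⟩, fun h => absurd hx.1 (by rw [h]; exact lt_irrefl _)⟩
    · intro x hx hne
      exact ⟨(), pos_iff_ne_zero.2 hne, hx.2⟩
    · intro _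
      exact model_Ioc b hcount 0 (pos_iff_ne_zero.2 hb)

end Pool.Agent.Helper42
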