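import Mathlib

/-!
# Banach spaces in which bounded finite sums force the terms to zero

`NullSums X` says: every sequence in `X` all of whose finite sums are bounded tends to `0`.
Such a space contains no isomorphic copy of `c₀`.  The property passes to `ℓ²`-sums.
-/

open Filter Topology

namespace Pool.Agent.Helper42

/-- Every sequence with bounded finite sums tends to zero. -/
def NullSums (X : Type*) [NormedAddCommGroup X] : Prop :=
  ∀ x : ℕ → X, (∃ C : ℝ, ∀ s : Finset ℕ, ‖∑ i ∈ s, x i‖ ≤ C) → Tendsto x atTop (𝓝 0)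

theorem nullSums_of_bounded_below {X Z : Type*} [NormedAddCommGroup X] [NormedSpace ℝ X]
    [NormedAddCommGroup Z] [NormedSpace ℝ Z] (T : X →L[ℝ] Z) (K : ℝ)
    (hT : ∀ x, ‖x‖ ≤ K * ‖T x‖) (hZ : NullSums Z) : NullSums X := by
  intro x ⟨C, hC⟩
  have h1 : Tendsto (fun i => T (x i)) atTop (𝓝 0) := by
    apply hZ
    refine ⟨‖T‖ * C, fun s => ?_⟩
    rw [← map_sum]
    exact (T.le_opNorm _).trans (mul_le_mul_of_nonneg_left (hC s) (norm_nonneg _))
  rw [tendsto_zero_iff_norm_tendsto_zero] at h1 ⊢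
  have h2 : Tendsto (fun i => K * ‖T (x i)‖) atTop (𝓝 0) := by
    simpa using h1.const_mul K
  exact squeeze_zero (fun i => norm_nonneg _) (fun i => hT _) h2

theorem nullSums_real : NullSums ℝ := by
  intro x ⟨C, hC⟩
  have h : Summable fun i => |x i| := by
    refine summable_of_sum_le (c := C + C) (fun i => abs_nonneg _) fun s => ?_
    rw [← Finset.sum_filter_add_sum_filter_not s (fun i => 0 ≤ x i)]
    refine add_le_add ?_ ?_
    · calc ∑ i ∈ s with 0 ≤ x i, |x i| = ∑ i ∈ s with 0 ≤ x i, x i :=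
            Finset.sum_congr rfl fun i hi => abs_of_nonneg (Finset.mem_filter.1 hi).2
        _ ≤ ‖∑ i ∈ s with 0 ≤ x i, x i‖ := Real.le_norm_self _
        _ ≤ C := hC _
    · calc ∑ i ∈ s with ¬ 0 ≤ x i, |x i| = - ∑ i ∈ s with ¬ 0 ≤ x i, x i := by
            rw [← Finset.sum_neg_distrib]
            exact Finset.sum_congr rfl fun i hi =>
              abs_of_neg (not_le.1 (Finset.mem_filter.1 hi).2)
        _ ≤ ‖∑ i ∈ s with ¬ 0 ≤ x i, x i‖ := by
            rw [← norm_neg]; exact Real.le_norm_self _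
        _ ≤ C := hC _
  have h2 := h.tendsto_atTop_zero
  exact tendsto_zero_iff_abs_tendsto_zero _ |>.2 h2

theorem nullSums_prod {X Z : Type*} [NormedAddCommGroup X] [NormedAddCommGroup Z]
    (hX : NullSums X) (hZ : NullSums Z) : NullSums (X × Z) := by
  intro x ⟨C, hC⟩
  have h1 : Tendsto (fun i => (x i).1) atTop (𝓝 0) := by
    apply hX
    refine ⟨C, fun s => ?_⟩
    have := (norm_fst_le (∑ i ∈ s, x i)).trans (hC s)
    rwa [Prod.fst_sum] at this
  have h2 : Tendsto (fun i => (x i).2) atTop (𝓝 0) := by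
    apply hZ
    refine ⟨C, fun s => ?_⟩
    have := (norm_snd_le (∑ i ∈ s, x i)).trans (hC s)
    rwa [Prod.snd_sum] at this
  exact h1.prodMk_nhds h2

section lp2

variable {ι : Type*} {E : ι → Type*} [∀ i, NormedAddCommGroup (E i)]

noncomputable local instance : DecidableEq ι := Classical.decEq ι

theorem lp2_norm_sum_single (f : ∀ i, E i) (s : Finset ι) :
    ‖∑ i ∈ s, lp.single 2 i (f i)‖ ^ 2 = ∑ i ∈ s, ‖f i‖ ^ 2 := by
  have := lp.norm_sum_single (p := 2) (by norm_num) f s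
  simpa using this

theorem lp2_pyth (f : lp E 2) (s : Finset ι) :
    ‖f‖ ^ 2 = ‖∑ i ∈ s, lp.single 2 i (f i)‖ ^ 2 +
      ‖f - ∑ i ∈ s, lp.single 2 i (f i)‖ ^ 2 := by
  have h1 := lp.norm_sub_norm_compl_sub_single (p := 2) (by norm_num) f s
  have h2 := lp2_norm_sum_single f s
  simp only [ENNReal.toReal_ofNat, Real.rpow_ofNat] at h1
  rw [h2]
  linarith

/-- The projection on the coordinates in `s`. -/
noncomputable def proj2 (s : Finset ι) (f : lp E 2) : lp E 2 :=
  ∑ i ∈ s, lp.single 2 i (f i)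

theorem proj2_add (s : Finset ι) (f g : lp E 2) : proj2 s (f + g) = proj2 s f + proj2 s g := by
  unfold proj2
  rw [← Finset.sum_add_distrib]
  refine Finset.sum_congr rfl fun i _ => ?_
  rw [lp.coeFn_add, Pi.add_apply, lp.single_add]

theorem nullSums_lp2 (hE : ∀ i, NullSums (E i)) : NullSums (lp E 2) := by
  intro x ⟨C, hC⟩
  by_contra hcon
  -- coordinatewise convergence
  have hcoord : ∀ i, Tendsto (fun k => x k i) atTop (𝓝 0) := by
    intro i
    apply hE i
    refine ⟨C, fun s => ?_⟩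
    have h1 := (lp.norm_apply_le_norm (by norm_num) (∑ k ∈ s, x k) i).trans (hC s)
    rwa [lp.coeFn_sum, Finset.sum_apply] at h1
  have hproj : ∀ s : Finset ι, Tendsto (fun k => proj2 s (x k)) atTop (𝓝 0) := by
    intro s
    unfold proj2
    rw [show (0 : lp E 2) = ∑ i ∈ s, (0 : lp E 2) by simp]
    refine tendsto_finsetSum _ fun i _ => ?_
    rw [tendsto_zero_iff_norm_tendsto_zero]
    simp_rw [lp.norm_single (p := 2) (by norm_num)]
    exact tendsto_zero_iff_norm_tendsto_zero.1 (hcoord i)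
  obtain ⟨δ, hδ, hfreq⟩ : ∃ δ > 0, ∃ᶠ k in atTop, δ ≤ ‖x k‖ := by
    rw [Metric.tendsto_nhds] at hcon
    push Not at hcon
    obtain ⟨δ, hδ, h⟩ := hcon
    refine ⟨δ, hδ, ?_⟩
    refine h.mono fun k hk => ?_
    rwa [dist_zero_right] at hk
  -- the growth step
  have hstep : ∀ (G : Finset ℕ) (v : lp E 2), ∃ k, k ∉ G ∧
      ‖v‖ ^ 2 + δ ^ 2 / 4 ≤ ‖v + x k‖ ^ 2 := by
    intro G v
    set η : ℝ := (3 * δ ^ 2 / 4) / (4 * (‖v‖ + δ)) with hη
    have hpos : 0 < ‖v‖ + δ := by positivity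
    have hη0 : 0 < η := by positivity
    have hη1 : 4 * η * (‖v‖ + δ) = 3 * δ ^ 2 / 4 := by
      rw [hη]; field_simp
    have hsum : HasSum (fun i : ι => lp.single 2 i (v i : E i)) v :=
      lp.hasSum_single (by norm_num) v
    obtain ⟨s, hs⟩ : ∃ s : Finset ι, ‖v - proj2 s v‖ ≤ η := by
      have := (Metric.tendsto_nhds.1 hsum) η hη0
      obtain ⟨s, hs⟩ := this.exists
      refine ⟨s, ?_⟩
      rw [dist_comm, dist_eq_norm] at hs
      exact hs.le
    have hev1 : ∀ᶠ k in atTop, ‖proj2 s (x k)‖ ≤ η := by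
      have := (Metric.tendsto_nhds.1 (hproj s)) η hη0
      refine this.mono fun k hk => ?_
      rw [dist_zero_right] at hk
      exact hk.le
    have hev2 : ∀ᶠ k in atTop, k ∉ G := by
      have : ∀ᶠ k in atTop, ∀ g ∈ G, g < k := by
        rw [Finset.eventually_all]
        exact fun g _ => eventually_gt_atTop g
      exact this.mono fun k hk hkG => lt_irrefl _ (hk k hkG)
    obtain ⟨k, hk1, hk2, hk3⟩ := (hfreq.and_eventually (hev1.and hev2)).exists
    refine ⟨k, hk3, ?_⟩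
    have hp := lp2_pyth (v + x k) s
    change _ = ‖proj2 s (v + x k)‖ ^ 2 + ‖v + x k - proj2 s (v + x k)‖ ^ 2 at hp
    rw [hp]
    have ha : ‖v‖ - 2 * η ≤ ‖proj2 s (v + x k)‖ := by
      rw [proj2_add]
      have h1 : ‖v‖ ≤ ‖proj2 s v + proj2 s (x k)‖ + ‖proj2 s (x k)‖ + ‖v - proj2 s v‖ := by
        calc ‖v‖ = ‖(proj2 s v + proj2 s (x k)) - proj2 s (x k) + (v - proj2 s v)‖ := by
              congr 1; abel
          _ ≤ ‖(proj2 s v + proj2 s (x k)) - proj2 s (x k)‖ + ‖v - proj2 s v‖ :=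
              norm_add_le _ _
          _ ≤ _ := by gcongr; exact norm_sub_le _ _
      linarith
    have hb : δ - 2 * η ≤ ‖v + x k - proj2 s (v + x k)‖ := by
      rw [proj2_add]
      have h1 : ‖x k‖ ≤ ‖v + x k - (proj2 s v + proj2 s (x k))‖ + ‖proj2 s (x k)‖
          + ‖v - proj2 s v‖ := by
        calc ‖x k‖ = ‖(v + x k - (proj2 s v + proj2 s (x k))) + proj2 s (x k)
              - (v - proj2 s v)‖ := by congr 1; abel
          _ ≤ ‖(v + x k - (proj2 s v + proj2 s (x k))) + proj2 s (x k)‖ + ‖v - proj2 s v‖ :=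
              norm_sub_le _ _
          _ ≤ _ := by gcongr; exact norm_add_le _ _
      linarith
    have ha2 : ‖v‖ ^ 2 - 4 * η * ‖v‖ ≤ ‖proj2 s (v + x k)‖ ^ 2 := by
      rcases le_total (2 * η) ‖v‖ with h | h
      · have : (‖v‖ - 2 * η) ^ 2 ≤ ‖proj2 s (v + x k)‖ ^ 2 :=
          pow_le_pow_left₀ (by linarith) ha 2
        nlinarith
      · nlinarith [norm_nonneg v, sq_nonneg ‖proj2 s (v + x k)‖]
    have hb2 : δ ^ 2 - 4 * η * δ ≤ ‖v + x k - proj2 s (v + x k)‖ ^ 2 := by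
      rcases le_total (2 * η) δ with h | h
      · have : (δ - 2 * η) ^ 2 ≤ ‖v + x k - proj2 s (v + x k)‖ ^ 2 :=
          pow_le_pow_left₀ (by linarith) hb 2
        nlinarith
      · nlinarith [hδ.le, sq_nonneg ‖v + x k - proj2 s (v + x k)‖]
    nlinarith
  have hall : ∀ M : ℕ, ∃ G : Finset ℕ, (M : ℝ) * (δ ^ 2 / 4) ≤ ‖∑ k ∈ G, x k‖ ^ 2 := by
    intro M
    induction M with
    | zero => exact ⟨∅, by simp⟩
    | succ M ih =>
      obtain ⟨G, hG⟩ := ih
      obtain ⟨k, hkG, hk⟩ := hstep G (∑ k ∈ G, x k)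
      refine ⟨insert k G, ?_⟩
      rw [Finset.sum_insert hkG, add_comm (x k)]
      push_cast
      linarith
  obtain ⟨M, hM⟩ := exists_nat_gt (C ^ 2 / (δ ^ 2 / 4))
  obtain ⟨G, hG⟩ := hall M
  have h1 : ‖∑ k ∈ G, x k‖ ^ 2 ≤ C ^ 2 :=
    pow_le_pow_left₀ (norm_nonneg _) (hC G) 2
  rw [div_lt_iff₀ (by positivity)] at hM
  linarith

/-- The norms of the restrictions of a functional of norm at most one on the `ℓ²`-sum are
square summable with sum at most one. -/
theorem lp2_dual_sq_sum_le [∀ i, NormedSpace ℝ (E i)] (z : StrongDual ℝ (lp E 2))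
    (hz : ‖z‖ ≤ 1) (s : Finset ι) :
    ∑ i ∈ s, ‖z.comp (lp.singleContinuousLinearMap ℝ E 2 i)‖ ^ 2 ≤ 1 := by
  set a : ι → ℝ := fun i => ‖z.comp (lp.singleContinuousLinearMap ℝ E 2 i)‖ with ha
  have ha0 : ∀ i, 0 ≤ a i := fun i => norm_nonneg _
  set S : ℝ := ∑ i ∈ s, a i ^ 2 with hS
  have hS0 : 0 ≤ S := Finset.sum_nonneg fun i _ => sq_nonneg _
  -- for all `t < 1`, `t * S ≤ √S`
  have key : ∀ t : ℝ, 0 < t → t < 1 → t * S ≤ √S := by
    intro t ht0 ht1
    have hex : ∀ i, ∃ v : E i, ‖v‖ ≤ 1 ∧ t * a i ≤ z (lp.single 2 i v) := by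
      intro i
      rcases eq_or_lt_of_le (ha0 i) with h | h
      · exact ⟨0, by simp, by rw [← h]; simp⟩
      · have h2 : t * a i < ‖z.comp (lp.singleContinuousLinearMap ℝ E 2 i)‖ := by
          change t * a i < a i
          nlinarith
        obtain ⟨v, hv1, hv2⟩ := ContinuousLinearMap.exists_lt_apply_of_lt_opNorm _ h2
        rw [ContinuousLinearMap.comp_apply, lp.singleContinuousLinearMap_apply,
          Real.norm_eq_abs] at hv2
        rcases le_total 0 (z (lp.single 2 i v)) with h3 | h3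
        · rw [abs_of_nonneg h3] at hv2
          exact ⟨v, hv1.le, hv2.le⟩
        · rw [abs_of_nonpos h3] at hv2
          refine ⟨-v, by rw [norm_neg]; exact hv1.le, ?_⟩
          rw [lp.single_neg, map_neg]
          exact hv2.le
    choose v hv1 hv2 using hex
    calc t * S = ∑ i ∈ s, a i * (t * a i) := by
          rw [hS, Finset.mul_sum]
          exact Finset.sum_congr rfl fun i _ => by ring
      _ ≤ ∑ i ∈ s, a i * z (lp.single 2 i (v i)) :=
          Finset.sum_le_sum fun i _ => mul_le_mul_of_nonneg_left (hv2 i) (ha0 i)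
      _ = z (∑ i ∈ s, lp.single 2 i (a i • v i)) := by
          rw [map_sum]
          refine Finset.sum_congr rfl fun i _ => ?_
          rw [lp.single_smul, map_smul, smul_eq_mul]
      _ ≤ ‖z‖ * ‖∑ i ∈ s, lp.single 2 i (a i • v i)‖ :=
          (le_abs_self _).trans (z.le_opNorm _)
      _ ≤ 1 * √S := by
          refine mul_le_mul hz ?_ (norm_nonneg _) zero_le_one
          apply Real.le_sqrt_of_sq_le
          rw [lp2_norm_sum_single, hS]
          refine Finset.sum_le_sum fun i _ => ?_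
          rw [norm_smul, Real.norm_eq_abs, abs_of_nonneg (ha0 i), mul_pow]
          have : ‖v i‖ ^ 2 ≤ 1 := pow_le_one₀ (norm_nonneg _) (hv1 i)
          nlinarith [sq_nonneg (a i)]
      _ = √S := one_mul _
  have h1 : S ≤ √S := by
    by_contra hcon
    push Not at hcon
    have hSpos : 0 < S := lt_of_le_of_lt (Real.sqrt_nonneg _) hcon
    have h2 := key ((√S / S + 1) / 2) (by positivity) (by
      have : √S / S < 1 := (div_lt_one hSpos).2 hcon
      linarith)
    have h3 : (√S / S + 1) / 2 * S = (√S + S) / 2 := by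
      field_simp
    rw [h3] at h2
    linarith
  have h2 : S ^ 2 ≤ S := by
    calc S ^ 2 ≤ (√S) ^ 2 := pow_le_pow_left₀ hS0 h1 2
      _ = S := Real.sq_sqrt hS0
  by_contra hcon
  push Not at hcon
  nlinarith

theorem lp2_dual_mul_sum_le [∀ i, NormedSpace ℝ (E i)] (z w : StrongDual ℝ (lp E 2))
    (hz : ‖z‖ ≤ 1) (hw : ‖w‖ ≤ 1) (s : Finset ι) :
    ∑ i ∈ s, ‖z.comp (lp.singleContinuousLinearMap ℝ E 2 i)‖ *
      ‖w.comp (lp.singleContinuousLinearMap ℝ E 2 i)‖ ≤ 1 := by
  have h1 := lp2_dual_sq_sum_le z hz s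
  have h2 := lp2_dual_sq_sum_le w hw s
  calc _ ≤ ∑ i ∈ s, (‖z.comp (lp.singleContinuousLinearMap ℝ E 2 i)‖ ^ 2 +
      ‖w.comp (lp.singleContinuousLinearMap ℝ E 2 i)‖ ^ 2) / 2 :=
        Finset.sum_le_sum fun i _ => by
          nlinarith [sq_nonneg (‖z.comp (lp.singleContinuousLinearMap ℝ E 2 i)‖ -
            ‖w.comp (lp.singleContinuousLinearMap ℝ E 2 i)‖)]
    _ = (∑ i ∈ s, ‖z.comp (lp.singleContinuousLinearMap ℝ E 2 i)‖ ^ 2 +
      ∑ i ∈ s, ‖w.comp (lp.singleContinuousLinearMap ℝ E 2 i)‖ ^ 2) / 2 := by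
        rw [← Finset.sum_div, Finset.sum_add_distrib]
    _ ≤ 1 := by linarith

end lp2

end Pool.Agent.Helper42
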