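import Pool.Agent.Helper42.InjTensorOps
import Pool.Agent.Helper42.NullSums

/-!
# Square models of `C(K)`

A square model of `C(K)` is a Banach space `X` with null sums (hence without copies of `c₀`)
together with a uniformly good copy of `C(K)` in the injective tensor product of `X` with
itself.  Square models can be glued along one-point compactifications.
-/

open Filter Topology TensorProduct

namespace Pool.Agent.Helper42

universe u

/-- A square model of `C(K)`. -/
structure Model (K : Type u) [TopologicalSpace K] [CompactSpace K] where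
  X : Type u
  [grp : NormedAddCommGroup X]
  [spc : NormedSpace ℝ X]
  [cpl : CompleteSpace X]
  nullSums : NullSums X
  φ : K → StrongDual ℝ X
  norm_φ : ∀ r, ‖φ r‖ ≤ 1
  cont_φ : ∀ x, Continuous fun r => φ r x
  J : C(K, ℝ) →ₗ[ℝ] InjTensor X X
  norm_J : ∀ (f : C(K, ℝ)) (C : ℝ), 0 ≤ C → (∀ r, |f r| ≤ C) → (∀ r s, |f r - f s| ≤ C) →
    ‖J f‖ ≤ C
  meet : ∀ r s, ∃ m, ∀ f, pair (φ r) (φ s) (J f) = f m
  pair_self : ∀ r f, pair (φ r) (φ r) (J f) = f r

attribute [instance] Model.grp Model.spc Model.cpl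

namespace Glue

noncomputable local instance (priority := 10000) {ι : Type} : DecidableEq ι :=
  Classical.decEq ι

variable {K : Type u} [TopologicalSpace K] [CompactSpace K] {ι : Type} {L : ι → Type u}
  [∀ i, TopologicalSpace (L i)] [∀ i, CompactSpace (L i)]

/-- The data for glueing. -/
structure Data (K : Type u) [TopologicalSpace K] [CompactSpace K] {ι : Type} (L : ι → Type u)
    [∀ i, TopologicalSpace (L i)] [∀ i, CompactSpace (L i)] where
  M : ∀ i, Model (L i)
  j : ∀ i, L i → K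
  hj : ∀ i, IsOpenEmbedding (j i)
  hclosed : ∀ i, IsClosed (Set.range (j i))
  hdisj : ∀ i i' a a', j i a = j i' a' → i = i'
  p : K
  hp : ∀ i a, j i a ≠ p
  hcov : ∀ r, r ≠ p → ∃ i a, j i a = r

variable (D : Data K L)

/-- The `ℓ²`-sum of the spaces of the models. -/
abbrev Z : Type u := lp (fun i => (D.M i).X) 2

/-- The restriction of a function to the `i`-th piece. -/
def res (i : ι) (f : C(K, ℝ)) : C(L i, ℝ) := f.comp ⟨D.j i, (D.hj i).continuous⟩

/-- The `i`-th coordinate on the `ℓ²`-sum. -/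
noncomputable def ev (i : ι) : Z D →L[ℝ] (D.M i).X := lp.evalCLM ℝ (fun i => (D.M i).X) 2 i

/-- The inclusion of the `i`-th space in the `ℓ²`-sum. -/
noncomputable def sg (i : ι) : (D.M i).X →L[ℝ] Z D :=
  lp.singleContinuousLinearMap ℝ (fun i => (D.M i).X) 2 i

theorem norm_ev_le (i : ι) (z : Z D) : ‖ev D i z‖ ≤ ‖z‖ :=
  lp.norm_apply_le_norm (E := fun i => (D.M i).X) (p := 2) (by norm_num) z i

theorem norm_sg (i : ι) (x : (D.M i).X) : ‖sg D i x‖ = ‖x‖ :=
  lp.norm_single (E := fun i => (D.M i).X) (p := 2) (by norm_num) i x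

theorem ev_sg_self (i : ι) (x : (D.M i).X) : ev D i (sg D i x) = x :=
  lp.single_apply_self (E := fun i => (D.M i).X) 2 i x

theorem ev_sg_ne {i i' : ι} (h : i' ≠ i) (x : (D.M i).X) : ev D i' (sg D i x) = 0 :=
  lp.single_apply_ne (E := fun i => (D.M i).X) 2 i x h

/-- The glued space, as a submodule. -/
def S : Submodule ℝ (C(K, ℝ) × Z D) where
  carrier := {q | ∀ i a, q.1 (D.j i a) = q.1 D.p + (D.M i).φ a (ev D i q.2)}
  add_mem' := by
    intro q q' hq hq' i a
    have h1 := hq i a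
    have h2 := hq' i a
    change q.1 (D.j i a) + q'.1 (D.j i a) = (q.1 D.p + q'.1 D.p) +
      (D.M i).φ a (ev D i (q.2 + q'.2))
    rw [map_add, map_add, h1, h2]
    ring
  zero_mem' := by
    intro i a
    change (0 : ℝ) = 0 + (D.M i).φ a (ev D i 0)
    rw [map_zero, map_zero, add_zero]
  smul_mem' := by
    intro c q hq i a
    have h1 := hq i a
    change c * q.1 (D.j i a) = c * q.1 D.p + (D.M i).φ a (ev D i (c • q.2))
    rw [map_smul, map_smul, h1, smul_eq_mul]
    ring

theorem mem_S (q : C(K, ℝ) × Z D) : q ∈ S D ↔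
    ∀ i a, q.1 (D.j i a) = q.1 D.p + (D.M i).φ a (ev D i q.2) := Iff.rfl

theorem isClosed_S : IsClosed (S D : Set (C(K, ℝ) × Z D)) := by
  have : (S D : Set (C(K, ℝ) × Z D)) =
      ⋂ i, ⋂ a, {q | q.1 (D.j i a) = q.1 D.p + (D.M i).φ a (ev D i q.2)} := by
    ext q
    simp only [SetLike.mem_coe, mem_S, Set.mem_iInter]
    rfl
  rw [this]
  refine isClosed_iInter fun i => isClosed_iInter fun a => ?_
  refine isClosed_eq ?_ ?_
  · exact (continuous_eval_const (D.j i a)).comp continuous_fst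
  · refine ((continuous_eval_const D.p).comp continuous_fst).add ?_
    exact ((D.M i).φ a).continuous.comp ((ev D i).continuous.comp continuous_snd)

/-- The glued space. -/
def X : Type u := S D

noncomputable instance : NormedAddCommGroup (X D) :=
  inferInstanceAs (NormedAddCommGroup (S D))

noncomputable instance : NormedSpace ℝ (X D) := inferInstanceAs (NormedSpace ℝ (S D))

noncomputable instance : CompleteSpace (X D) := (isClosed_S D).completeSpace_coe

/-- The first component. -/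
def fst (q : X D) : C(K, ℝ) := q.1.1

/-- The second component. -/
def snd (q : X D) : Z D := q.1.2

theorem fst_add (q q' : X D) (r : K) : fst D (q + q') r = fst D q r + fst D q' r := rfl
theorem fst_smul (c : ℝ) (q : X D) (r : K) : fst D (c • q) r = c * fst D q r := rfl
theorem snd_add (q q' : X D) : snd D (q + q') = snd D q + snd D q' := rfl
theorem snd_smul (c : ℝ) (q : X D) : snd D (c • q) = c • snd D q := rfl

theorem norm_def' (q : X D) : ‖q‖ = max ‖fst D q‖ ‖snd D q‖ := rfl

theorem norm_fst_le' (q : X D) : ‖fst D q‖ ≤ ‖q‖ := le_max_left _ _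
theorem norm_snd_le' (q : X D) : ‖snd D q‖ ≤ ‖q‖ := le_max_right _ _

theorem ext' {q q' : X D} (h1 : ∀ r, fst D q r = fst D q' r) (h2 : snd D q = snd D q') :
    q = q' :=
  Subtype.ext (Prod.ext (ContinuousMap.ext h1) h2)

theorem fst_j (q : X D) (i : ι) (a : L i) :
    fst D q (D.j i a) = fst D q D.p + (D.M i).φ a (ev D i (snd D q)) := q.2 i a

/-- The evaluation functionals on the glued space. -/
noncomputable def φ (r : K) : StrongDual ℝ (X D) :=
  LinearMap.mkContinuous
    { toFun := fun q => fst D q r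
      map_add' := fun q q' => fst_add D q q' r
      map_smul' := fun c q => fst_smul D c q r } 1 (fun q => by
        rw [one_mul]
        exact (ContinuousMap.norm_coe_le_norm (fst D q) r).trans (norm_fst_le' D q))

theorem φ_apply (r : K) (q : X D) : φ D r q = fst D q r := rfl

/-- The projection on the `ℓ²`-sum. -/
noncomputable def π : X D →L[ℝ] Z D :=
  LinearMap.mkContinuous
    { toFun := fun q => snd D q
      map_add' := fun q q' => snd_add D q q'
      map_smul' := fun c q => snd_smul D c q } 1 (fun q => by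
        rw [one_mul]
        exact norm_snd_le' D q)

theorem π_apply (q : X D) : π D q = snd D q := rfl

theorem norm_φ (r : K) : ‖φ D r‖ ≤ 1 := LinearMap.mkContinuous_norm_le _ zero_le_one _

theorem cont_φ (q : X D) : Continuous fun r => φ D r q := by
  simp only [φ_apply]
  exact (fst D q).continuous

/-- Extension by zero of a function on the `i`-th piece. -/
noncomputable def ext0 (i : ι) (g : C(L i, ℝ)) : C(K, ℝ) where
  toFun := Function.extend (D.j i) g 0
  continuous_toFun := by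
    rw [continuous_iff_continuousAt]
    intro r
    by_cases hr : r ∈ Set.range (D.j i)
    · obtain ⟨a, rfl⟩ := hr
      rw [← (D.hj i).continuousAt_iff]
      have : Function.extend (D.j i) g 0 ∘ D.j i = g := by
        funext b
        exact (D.hj i).injective.extend_apply _ _ _
      rw [this]
      exact g.continuous.continuousAt
    · have h1 : (Set.range (D.j i))ᶜ ∈ 𝓝 r := (D.hclosed i).isOpen_compl.mem_nhds hr
      have h2 : Function.extend (D.j i) g 0 =ᶠ[𝓝 r] fun _ => (0 : ℝ) := by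
        filter_upwards [h1] with s hs
        rw [Function.extend_apply']
        · rfl
        · rintro ⟨a, ha⟩; exact hs ⟨a, ha⟩
      exact continuousAt_const.congr h2.symm

theorem ext0_apply_j (i : ι) (g : C(L i, ℝ)) (a : L i) : ext0 D i g (D.j i a) = g a :=
  (D.hj i).injective.extend_apply _ _ _

theorem ext0_apply_of_not_mem (i : ι) (g : C(L i, ℝ)) (r : K) (hr : ∀ a, D.j i a ≠ r) :
    ext0 D i g r = 0 := by
  change Function.extend (D.j i) g 0 r = 0
  rw [Function.extend_apply']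
  · rfl
  · rintro ⟨a, ha⟩; exact hr a ha

theorem ext0_p (i : ι) (g : C(L i, ℝ)) : ext0 D i g D.p = 0 :=
  ext0_apply_of_not_mem D i g _ fun a => D.hp i a

/-- The function `a ↦ φ a x` on the `i`-th piece. -/
def fn (i : ι) (x : (D.M i).X) : C(L i, ℝ) := ⟨fun a => (D.M i).φ a x, (D.M i).cont_φ x⟩

theorem fn_apply (i : ι) (x : (D.M i).X) (a : L i) : fn D i x a = (D.M i).φ a x := rfl

/-- The inclusion of the `i`-th space in the glued space, as a function. -/
noncomputable def inj₀ (i : ι) (x : (D.M i).X) : X D :=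
  ⟨(ext0 D i (fn D i x), sg D i x), by
    intro i' a
    change ext0 D i (fn D i x) (D.j i' a) = ext0 D i (fn D i x) D.p +
      (D.M i').φ a (ev D i' (sg D i x))
    rw [ext0_p, zero_add]
    rcases eq_or_ne i' i with rfl | h
    · rw [ext0_apply_j, ev_sg_self]; rfl
    · rw [ev_sg_ne D h x, map_zero]
      exact ext0_apply_of_not_mem D i _ _ fun b hb => h (D.hdisj _ _ _ _ hb).symm⟩

theorem inj₀_fst (i : ι) (x : (D.M i).X) : fst D (inj₀ D i x) = ext0 D i (fn D i x) := rfl

theorem inj₀_snd (i : ι) (x : (D.M i).X) : snd D (inj₀ D i x) = sg D i x := rfl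

theorem inj₀_add (i : ι) (x y : (D.M i).X) : inj₀ D i (x + y) = inj₀ D i x + inj₀ D i y := by
  apply ext'
  · intro r
    rw [fst_add, inj₀_fst, inj₀_fst, inj₀_fst]
    by_cases hr : ∃ a, D.j i a = r
    · obtain ⟨a, rfl⟩ := hr
      rw [ext0_apply_j, ext0_apply_j, ext0_apply_j, fn_apply, fn_apply, fn_apply, map_add]
    · push Not at hr
      rw [ext0_apply_of_not_mem _ _ _ _ hr, ext0_apply_of_not_mem _ _ _ _ hr,
        ext0_apply_of_not_mem _ _ _ _ hr, add_zero]
  · rw [snd_add, inj₀_snd, inj₀_snd, inj₀_snd, map_add]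

theorem inj₀_smul (i : ι) (c : ℝ) (x : (D.M i).X) : inj₀ D i (c • x) = c • inj₀ D i x := by
  apply ext'
  · intro r
    rw [fst_smul, inj₀_fst, inj₀_fst]
    by_cases hr : ∃ a, D.j i a = r
    · obtain ⟨a, rfl⟩ := hr
      rw [ext0_apply_j, ext0_apply_j, fn_apply, fn_apply, map_smul, smul_eq_mul]
    · push Not at hr
      rw [ext0_apply_of_not_mem _ _ _ _ hr, ext0_apply_of_not_mem _ _ _ _ hr, mul_zero]
  · rw [snd_smul, inj₀_snd, inj₀_snd, map_smul]

theorem norm_inj₀_le (i : ι) (x : (D.M i).X) : ‖inj₀ D i x‖ ≤ 1 * ‖x‖ := by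
  rw [norm_def', inj₀_fst, inj₀_snd, one_mul]
  refine max_le ?_ ?_
  · rw [ContinuousMap.norm_le _ (norm_nonneg _)]
    intro r
    by_cases hr : ∃ a, D.j i a = r
    · obtain ⟨a, rfl⟩ := hr
      rw [ext0_apply_j, fn_apply]
      refine ((D.M i).φ a).le_of_opNorm_le ((D.M i).norm_φ a) x |>.trans ?_
      rw [one_mul]
    · push Not at hr
      rw [ext0_apply_of_not_mem _ _ _ _ hr, norm_zero]
      exact norm_nonneg _
  · rw [norm_sg]

/-- The inclusion of the `i`-th space in the glued space. -/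
noncomputable def inj (i : ι) : (D.M i).X →L[ℝ] X D :=
  LinearMap.mkContinuous
    { toFun := inj₀ D i
      map_add' := inj₀_add D i
      map_smul' := inj₀_smul D i } 1 (norm_inj₀_le D i)

theorem inj_fst (i : ι) (x : (D.M i).X) : fst D (inj D i x) = ext0 D i (fn D i x) := rfl

theorem inj_snd (i : ι) (x : (D.M i).X) : snd D (inj D i x) = sg D i x := rfl

theorem norm_inj (i : ι) : ‖inj D i‖ ≤ 1 :=
  LinearMap.mkContinuous_norm_le _ zero_le_one _

theorem φ_comp_inj_self (i : ι) (a : L i) : (φ D (D.j i a)).comp (inj D i) = (D.M i).φ a := by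
  ext x
  rw [ContinuousLinearMap.comp_apply, φ_apply, inj_fst, ext0_apply_j]
  rfl

theorem φ_comp_inj_of_ne (i i' : ι) (a : L i) (h : i' ≠ i) :
    (φ D (D.j i a)).comp (inj D i') = 0 := by
  ext x
  rw [ContinuousLinearMap.comp_apply, φ_apply, inj_fst,
    ext0_apply_of_not_mem]
  · rfl
  · intro b hb
    exact h (D.hdisj _ _ _ _ hb)

theorem φ_p_comp_inj (i : ι) : (φ D D.p).comp (inj D i) = 0 := by
  ext x
  rw [ContinuousLinearMap.comp_apply, φ_apply, inj_fst, ext0_p]
  rfl

theorem π_comp_inj (i : ι) :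
    (π D).comp (inj D i) = lp.singleContinuousLinearMap ℝ (fun i => (D.M i).X) 2 i := by
  refine ContinuousLinearMap.ext fun x => ?_
  rfl

/-- The unit vector at the top. -/
noncomputable def e : X D := ⟨(1, 0), by
  intro i a
  change (1 : ℝ) = 1 + (D.M i).φ a (ev D i 0)
  rw [map_zero, map_zero, add_zero]⟩

theorem φ_e (r : K) : φ D r (e D) = 1 := rfl

theorem π_e : π D (e D) = 0 := rfl

/-- The norming set of functionals on the glued space. -/
def N : Set (StrongDual ℝ (X D)) :=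
  Set.range (φ D) ∪ {f | ∃ z : StrongDual ℝ (Z D), ‖z‖ ≤ 1 ∧ f = z.comp (π D)}

theorem norming_N : Norming (N D) := by
  intro q C hC h
  rw [norm_def']
  refine max_le ?_ ?_
  · rw [ContinuousMap.norm_le _ hC]
    intro r
    exact h (φ D r) (Or.inl ⟨r, rfl⟩)
  · obtain ⟨z, hz, hz2⟩ := exists_dual_vector'' ℝ (snd D q)
    have := h (z.comp (π D)) (Or.inr ⟨z, hz, rfl⟩)
    rw [ContinuousLinearMap.comp_apply, π_apply, hz2] at this
    simpa using this

theorem N_sq_sum {f : StrongDual ℝ (X D)} (hf : f ∈ N D) (s : Finset ι) :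
    ∑ i ∈ s, ‖f.comp (inj D i)‖ ^ 2 ≤ 1 := by
  rcases hf with ⟨r, rfl⟩ | ⟨z, hz, rfl⟩
  · by_cases hr : r = D.p
    · subst hr
      simp [φ_p_comp_inj]
    · obtain ⟨i, a, rfl⟩ := D.hcov r hr
      have h1 : ∀ i' ∈ s, i' ≠ i → ‖(φ D (D.j i a)).comp (inj D i')‖ ^ 2 = 0 := by
        intro i' _ h
        rw [φ_comp_inj_of_ne D i i' a h]
        simp
      calc ∑ i' ∈ s, ‖(φ D (D.j i a)).comp (inj D i')‖ ^ 2
          ≤ ∑ i' ∈ insert i s, ‖(φ D (D.j i a)).comp (inj D i')‖ ^ 2 :=
            Finset.sum_le_sum_of_subset_of_nonneg (Finset.subset_insert _ _)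
              (fun _ _ _ => sq_nonneg _)
        _ = ‖(φ D (D.j i a)).comp (inj D i)‖ ^ 2 := by
            refine Finset.sum_eq_single_of_mem i (Finset.mem_insert_self _ _) ?_
            intro i' _ h
            rw [φ_comp_inj_of_ne D i i' a h]
            simp
        _ ≤ 1 := by
            rw [φ_comp_inj_self]
            exact pow_le_one₀ (norm_nonneg _) ((D.M i).norm_φ a)
  · have := lp2_dual_sq_sum_le z hz s
    refine le_trans (le_of_eq (Finset.sum_congr rfl fun i _ => ?_)) this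
    rw [ContinuousLinearMap.comp_assoc, π_comp_inj]

theorem N_mul_sum {f g : StrongDual ℝ (X D)} (hf : f ∈ N D) (hg : g ∈ N D) (s : Finset ι) :
    ∑ i ∈ s, ‖f.comp (inj D i)‖ * ‖g.comp (inj D i)‖ ≤ 1 := by
  have h1 := N_sq_sum D hf s
  have h2 := N_sq_sum D hg s
  calc _ ≤ ∑ i ∈ s, (‖f.comp (inj D i)‖ ^ 2 + ‖g.comp (inj D i)‖ ^ 2) / 2 :=
        Finset.sum_le_sum fun i _ => by
          nlinarith [sq_nonneg (‖f.comp (inj D i)‖ - ‖g.comp (inj D i)‖)]
    _ = (∑ i ∈ s, ‖f.comp (inj D i)‖ ^ 2 + ∑ i ∈ s, ‖g.comp (inj D i)‖ ^ 2) / 2 := by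
        rw [← Finset.sum_div, Finset.sum_add_distrib]
    _ ≤ 1 := by linarith

/-- Finite sums of blocks. -/
theorem pair_block_le {f g : StrongDual ℝ (X D)} (hf : f ∈ N D) (hg : g ∈ N D) (s : Finset ι)
    (v : ∀ i, InjTensor (D.M i).X (D.M i).X) {C : ℝ} (hC : 0 ≤ C) (hv : ∀ i ∈ s, ‖v i‖ ≤ C) :
    |pair f g (∑ i ∈ s, tmap (inj D i) (inj D i) (v i))| ≤ C := by
  rw [map_sum]
  calc |∑ i ∈ s, pair f g (tmap (inj D i) (inj D i) (v i))|
      ≤ ∑ i ∈ s, |pair f g (tmap (inj D i) (inj D i) (v i))| := Finset.abs_sum_le_sum_abs _ _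
    _ ≤ ∑ i ∈ s, ‖f.comp (inj D i)‖ * ‖g.comp (inj D i)‖ * C := by
        refine Finset.sum_le_sum fun i hi => ?_
        rw [pair_tmap]
        refine (abs_pair_le _ _ _).trans ?_
        exact mul_le_mul_of_nonneg_left (hv i hi) (by positivity)
    _ = (∑ i ∈ s, ‖f.comp (inj D i)‖ * ‖g.comp (inj D i)‖) * C := by
        rw [Finset.sum_mul]
    _ ≤ 1 * C := mul_le_mul_of_nonneg_right (N_mul_sum D hf hg s) hC
    _ = C := one_mul C

theorem norm_block_le (s : Finset ι)
    (v : ∀ i, InjTensor (D.M i).X (D.M i).X) {C : ℝ} (hC : 0 ≤ C) (hv : ∀ i ∈ s, ‖v i‖ ≤ C) :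
    ‖∑ i ∈ s, tmap (inj D i) (inj D i) (v i)‖ ≤ C :=
  norm_le_of_norming (norming_N D) (norming_N D) _ hC
    fun _ hf _ hg => pair_block_le D hf hg s v hC hv

/-- The block of `f` on the `i`-th piece. -/
noncomputable def blk (i : ι) (f : C(K, ℝ)) : InjTensor (D.M i).X (D.M i).X :=
  (D.M i).J (res D i f - ContinuousMap.const _ (f D.p))

theorem blk_add (i : ι) (f g : C(K, ℝ)) : blk D i (f + g) = blk D i f + blk D i g := by
  unfold blk
  rw [← map_add]
  congr 1
  ext a
  simp [res]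
  ring

theorem blk_smul (i : ι) (c : ℝ) (f : C(K, ℝ)) : blk D i (c • f) = c • blk D i f := by
  unfold blk
  rw [← map_smul]
  congr 1
  ext a
  simp [res]
  ring

theorem norm_blk_le (i : ι) (f : C(K, ℝ)) {C : ℝ} (hC : 0 ≤ C)
    (h1 : ∀ a, |f (D.j i a) - f D.p| ≤ C) (h2 : ∀ a b, |f (D.j i a) - f (D.j i b)| ≤ C) :
    ‖blk D i f‖ ≤ C := by
  refine (D.M i).norm_J _ _ hC ?_ ?_
  · intro a; exact h1 a
  · intro a b
    have : (res D i f - ContinuousMap.const (L i) (f D.p)) a -
        (res D i f - ContinuousMap.const (L i) (f D.p)) b = f (D.j i a) - f (D.j i b) := by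
      simp [res]
    rw [this]
    exact h2 a b

theorem exists_finset (f : C(K, ℝ)) {ε : ℝ} (hε : 0 < ε) :
    ∃ s : Finset ι, ∀ i ∉ s, ‖blk D i f‖ ≤ ε := by
  let U : Set K := {r | |f r - f D.p| < ε / 2}
  have hU : IsOpen U := isOpen_lt (by fun_prop) continuous_const
  have hUc : IsCompact Uᶜ := hU.isClosed_compl.isCompact
  have hcover : Uᶜ ⊆ ⋃ i, Set.range (D.j i) := by
    intro r hr
    have : r ≠ D.p := by
      rintro rfl
      apply hr
      change |f D.p - f D.p| < ε / 2
      simp [hε]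
    obtain ⟨i, a, rfl⟩ := D.hcov r this
    exact Set.mem_iUnion.2 ⟨i, a, rfl⟩
  obtain ⟨s, hs⟩ := hUc.elim_finite_subcover (fun i => Set.range (D.j i))
    (fun i => (D.hj i).isOpen_range) hcover
  refine ⟨s, fun i hi => ?_⟩
  have key : ∀ a, |f (D.j i a) - f D.p| < ε / 2 := by
    intro a
    by_contra hcon
    have : D.j i a ∈ Uᶜ := hcon
    have := hs this
    simp only [Set.mem_iUnion] at this
    obtain ⟨i', hi', b, hb⟩ := this
    have := D.hdisj _ _ _ _ hb
    exact hi (this ▸ hi')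
  refine norm_blk_le D i f hε.le (fun a => by linarith [key a]) fun a b => ?_
  calc |f (D.j i a) - f (D.j i b)|
      = |(f (D.j i a) - f D.p) - (f (D.j i b) - f D.p)| := by congr 1; ring
    _ ≤ |f (D.j i a) - f D.p| + |f (D.j i b) - f D.p| := abs_sub _ _
    _ ≤ ε := by linarith [key a, key b]

theorem summable_blk (f : C(K, ℝ)) :
    Summable fun i => tmap (inj D i) (inj D i) (blk D i f) := by
  rw [summable_iff_vanishing_norm]
  intro ε hε
  obtain ⟨s, hs⟩ := exists_finset D f (half_pos hε)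
  refine ⟨s, fun t ht => ?_⟩
  refine lt_of_le_of_lt (norm_block_le D t _ (half_pos hε).le fun i hi => ?_) (half_lt_self hε)
  exact hs i fun his => Finset.disjoint_left.1 ht hi his

/-- The embedding of `C(K)` for the glued model. -/
noncomputable def J : C(K, ℝ) →ₗ[ℝ] InjTensor (X D) (X D) where
  toFun f := f D.p • tm (e D) (e D) + ∑' i, tmap (inj D i) (inj D i) (blk D i f)
  map_add' f g := by
    have h : ∀ i, tmap (inj D i) (inj D i) (blk D i (f + g)) =
        tmap (inj D i) (inj D i) (blk D i f) + tmap (inj D i) (inj D i) (blk D i g) := by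
      intro i; rw [blk_add, map_add]
    simp_rw [h]
    rw [(summable_blk D f).tsum_add (summable_blk D g), ContinuousMap.add_apply, add_smul]
    abel
  map_smul' c f := by
    have h : ∀ i, tmap (inj D i) (inj D i) (blk D i (c • f)) =
        c • tmap (inj D i) (inj D i) (blk D i f) := by
      intro i; rw [blk_smul, map_smul]
    simp_rw [h]
    rw [(summable_blk D f).tsum_const_smul, ContinuousMap.smul_apply, RingHom.id_apply,
      smul_eq_mul, mul_smul, smul_add]

theorem J_apply (f : C(K, ℝ)) :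
    J D f = f D.p • tm (e D) (e D) + ∑' i, tmap (inj D i) (inj D i) (blk D i f) := rfl

theorem pair_J (f g : StrongDual ℝ (X D)) (h : C(K, ℝ)) :
    pair f g (J D h) = h D.p * (f (e D) * g (e D)) +
      ∑' i, pair (f.comp (inj D i)) (g.comp (inj D i)) (blk D i h) := by
  rw [J_apply, map_add, map_smul, pair_tm, smul_eq_mul,
    ContinuousLinearMap.map_tsum _ (summable_blk D h)]
  simp_rw [pair_tmap]

theorem pair_J_p_left (g : StrongDual ℝ (X D)) (h : C(K, ℝ)) :
    pair (φ D D.p) g (J D h) = h D.p * g (e D) := by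
  rw [pair_J, φ_e, one_mul]
  simp_rw [φ_p_comp_inj, pair_zero_left]
  simp

theorem pair_J_p_right (f : StrongDual ℝ (X D)) (h : C(K, ℝ)) :
    pair f (φ D D.p) (J D h) = h D.p * f (e D) := by
  rw [pair_J, φ_e, mul_one]
  simp_rw [φ_p_comp_inj, pair_zero_right]
  simp

theorem pair_J_same (i : ι) (a b : L i) (h : C(K, ℝ)) :
    pair (φ D (D.j i a)) (φ D (D.j i b)) (J D h) =
      h D.p + pair ((D.M i).φ a) ((D.M i).φ b) (blk D i h) := by
  rw [pair_J, φ_e, φ_e, mul_one, mul_one, tsum_eq_single i, φ_comp_inj_self, φ_comp_inj_self]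
  intro i' hi'
  rw [φ_comp_inj_of_ne D i i' a hi', pair_zero_left]

theorem pair_J_diff (i i' : ι) (hi : i ≠ i') (a : L i) (b : L i') (h : C(K, ℝ)) :
    pair (φ D (D.j i a)) (φ D (D.j i' b)) (J D h) = h D.p := by
  rw [pair_J, φ_e, φ_e, mul_one, mul_one]
  have : ∀ k, pair ((φ D (D.j i a)).comp (inj D k)) ((φ D (D.j i' b)).comp (inj D k))
      (blk D k h) = 0 := by
    intro k
    rcases eq_or_ne k i with rfl | hk
    · rw [φ_comp_inj_of_ne D i' k b hi, pair_zero_right]
    · rw [φ_comp_inj_of_ne D i k a hk, pair_zero_left]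
  simp_rw [this]
  simp

theorem meet (r s : K) : ∃ m, ∀ f, pair (φ D r) (φ D s) (J D f) = f m := by
  by_cases hr : r = D.p
  · subst hr
    exact ⟨D.p, fun f => by rw [pair_J_p_left, φ_e, mul_one]⟩
  by_cases hs : s = D.p
  · subst hs
    exact ⟨D.p, fun f => by rw [pair_J_p_right, φ_e, mul_one]⟩
  obtain ⟨i, a, rfl⟩ := D.hcov r hr
  obtain ⟨i', b, rfl⟩ := D.hcov s hs
  rcases eq_or_ne i i' with rfl | hne
  · obtain ⟨m, hm⟩ := (D.M i).meet a b
    refine ⟨D.j i m, fun f => ?_⟩
    rw [pair_J_same, blk, hm]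
    simp [res]
  · exact ⟨D.p, fun f => pair_J_diff D i i' hne a b f⟩

theorem pair_self (r : K) (f : C(K, ℝ)) : pair (φ D r) (φ D r) (J D f) = f r := by
  by_cases hr : r = D.p
  · subst hr
    rw [pair_J_p_left, φ_e, mul_one]
  obtain ⟨i, a, rfl⟩ := D.hcov r hr
  rw [pair_J_same, blk, (D.M i).pair_self]
  simp [res]

theorem norm_J (f : C(K, ℝ)) (C : ℝ) (hC : 0 ≤ C) (h1 : ∀ r, |f r| ≤ C)
    (h2 : ∀ r s, |f r - f s| ≤ C) : ‖J D f‖ ≤ C := by
  have hb : ∀ i, ‖blk D i f‖ ≤ C := fun i =>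
    norm_blk_le D i f hC (fun a => h2 _ _) (fun a b => h2 _ _)
  have key : ∀ g ∈ N D, ∀ g' ∈ N D, |pair g g' (∑' i, tmap (inj D i) (inj D i) (blk D i f))|
      ≤ C := by
    intro g hg g' hg'
    have hlim := (((pair g g').continuous.tendsto _).comp (summable_blk D f).hasSum).abs
    refine le_of_tendsto hlim (Eventually.of_forall fun s => ?_)
    exact pair_block_le D hg hg' s _ hC fun i _ => hb i
  refine norm_le_of_norming (norming_N D) (norming_N D) _ hC fun g hg g' hg' => ?_
  by_cases hcase : (∃ z : StrongDual ℝ (Z D), ‖z‖ ≤ 1 ∧ g = z.comp (π D)) ∨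
      (∃ z : StrongDual ℝ (Z D), ‖z‖ ≤ 1 ∧ g' = z.comp (π D))
  · have h0 : g (e D) * g' (e D) = 0 := by
      rcases hcase with ⟨z, _, rfl⟩ | ⟨z, _, rfl⟩
      · rw [ContinuousLinearMap.comp_apply, π_e, map_zero, zero_mul]
      · rw [ContinuousLinearMap.comp_apply (f := π D), π_e, map_zero, mul_zero]
    rw [J_apply, map_add, map_smul, pair_tm, h0, smul_zero, zero_add]
    exact key g hg g' hg'
  · push Not at hcase
    rcases hg with ⟨r, rfl⟩ | ⟨z, hz, rfl⟩
    · rcases hg' with ⟨s, rfl⟩ | ⟨z, hz, rfl⟩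
      · obtain ⟨m, hm⟩ := meet D r s
        rw [hm]
        exact h1 m
      · exact absurd rfl (hcase.2 z hz)
    · exact absurd rfl (hcase.1 z hz)

theorem nullSums : NullSums (X D) := by
  have h1 : NullSums (ℝ × Z D) :=
    nullSums_prod nullSums_real (nullSums_lp2 fun i => (D.M i).nullSums)
  refine nullSums_of_bounded_below ((φ D D.p).prod (π D)) 2 (fun q => ?_) h1
  rw [norm_def']
  change _ ≤ 2 * max ‖fst D q D.p‖ ‖snd D q‖
  have hz : ‖snd D q‖ ≤ max ‖fst D q D.p‖ ‖snd D q‖ := le_max_right _ _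
  have hp : ‖fst D q D.p‖ ≤ max ‖fst D q D.p‖ ‖snd D q‖ := le_max_left _ _
  have h0 : 0 ≤ max ‖fst D q D.p‖ ‖snd D q‖ := (norm_nonneg _).trans hz
  refine max_le ?_ (by linarith)
  rw [ContinuousMap.norm_le _ (by linarith)]
  intro r
  by_cases hr : r = D.p
  · subst hr; linarith
  obtain ⟨i, a, rfl⟩ := D.hcov r hr
  rw [fst_j]
  have h3 : ‖(D.M i).φ a (ev D i (snd D q))‖ ≤ ‖snd D q‖ := by
    calc ‖(D.M i).φ a (ev D i (snd D q))‖ ≤ 1 * ‖ev D i (snd D q)‖ :=
          ((D.M i).φ a).le_of_opNorm_le ((D.M i).norm_φ a) _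
      _ = ‖ev D i (snd D q)‖ := one_mul _
      _ ≤ ‖snd D q‖ := norm_ev_le D i _
  calc ‖fst D q D.p + (D.M i).φ a (ev D i (snd D q))‖
      ≤ ‖fst D q D.p‖ + ‖(D.M i).φ a (ev D i (snd D q))‖ := norm_add_le _ _
    _ ≤ _ := by linarith

/-- The glued model. -/
noncomputable def glue : Model K where
  X := X D
  nullSums := nullSums D
  φ := φ D
  norm_φ := norm_φ D
  cont_φ := cont_φ D
  J := J D
  norm_J := norm_J D
  meet := meet D
  pair_self := pair_self D

end Glue

end Pool.Agent.Helper42
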